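import Pool.Agent.PPT.St1

/-!
# PPT, module AUG (helper80): a machine which also counts the crossings
-/

set_option autoImplicit false

open Finset
open scoped Classical

namespace Pool.Agent.PPT

namespace AUGx

/-- crossing test from the position modulo `Z` -/
def cr {Z : ℕ} (ρ : ZMod Z) (s : ℕ) : Option Bool → Prop
  | none => False
  | some true => ρ + 1 + s = 0
  | some false => ρ + s = 0

lemma ediv_succ (Z : ℕ) (hZ : 1 ≤ Z) (a : ℤ) : (a + 1) / (Z : ℤ) ≠ a / (Z : ℤ) ↔ (Z : ℤ) ∣ a + 1 := by
  have hZ' : (0 : ℤ) < Z := by exact_mod_cast hZ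
  have h1 := Int.emod_add_mul_ediv a Z
  have h2 := Int.emod_nonneg a hZ'.ne'
  have h3 := Int.emod_lt_of_pos a hZ'
  set r := a % (Z : ℤ) with hr
  set k := a / (Z : ℤ) with hk
  constructor
  · intro h
    have h4 : r + 1 = Z := by
      by_contra h5
      apply h
      have h6 : a + 1 = (r + 1) + Z * k := by linarith
      rw [h6, Int.add_mul_ediv_left _ _ hZ'.ne', Int.ediv_eq_zero_of_lt (by omega) (by omega), zero_add]
    exact ⟨k + 1, by linarith⟩
  · rintro ⟨c, hc⟩ h
    rw [hc, Int.mul_ediv_cancel_left _ hZ'.ne'] at h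
    rw [h] at hc
    have : r + 1 = 0 := by linarith
    omega

lemma zn_ne {Z : ℕ} (hZ : 1 ≤ Z) (s : ℕ) (h : ℤ) (d : Option Bool) :
    zn Z s (h + mv d) ≠ zn Z s h ↔ cr ((h : ℤ) : ZMod Z) s d := by
  match d with
  | none => simp [mv, cr]
  | some true =>
    unfold zn mv cr
    rw [show h + 1 + (s : ℤ) = (h + s) + 1 by ring, ediv_succ Z hZ,
      ← ZMod.intCast_zmod_eq_zero_iff_dvd]
    push_cast
    rw [show ((h : ZMod Z) + s + 1) = (h : ZMod Z) + 1 + s by ring]
  | some false =>
    unfold zn mv cr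
    rw [ne_comm, show h + (s : ℤ) = (h + -1 + s) + 1 by ring, ediv_succ Z hZ,
      ← ZMod.intCast_zmod_eq_zero_iff_dvd]
    push_cast
    rw [show ((h : ZMod Z) + -1 + s + 1) = (h : ZMod Z) + s by ring]

end AUGx

open AUGx in
theorem t_AUG : S_AUG := by
  intro P V G _ R Z m q σ hZ
  haveI : NeZero Z := ⟨by omega⟩
  let nx : ZMod Z → (Fin q → Fin (m + 2)) → Option Bool → Fin q → Fin (m + 2) :=
    fun ρ c d j => if cr ρ (σ j) d then ⟨min ((c j : ℕ) + 1) (m + 1), by omega⟩ else c j
  let R' : TM P (V × ZMod Z × (Fin q → Fin (m + 2))) G :=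
    { start := (R.start, 0, fun _ => 0)
      init := R.init
      rd := fun t v a => R.rd t v.1 a
      op := fun t v a x =>
        (((R.op t v.1 a x).1, v.2.1 + ((mv (R.op t v.1 a x).2.2 : ℤ) : ZMod Z),
          nx v.2.1 v.2.2 (R.op t v.1 a x).2.2), (R.op t v.1 a x).2.1, (R.op t v.1 a x).2.2)
      loc := by
        intro t v a x y h
        have := R.loc t v.1 a x y h
        simp only [this] }
  refine ⟨V × ZMod Z × (Fin q → Fin (m + 2)), inferInstance, R', fun v => v.1,
    fun v j => (v.2.2 j : ℕ), ?_, fun _ _ _ => rfl, ?_⟩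
  · rw [Fintype.card_prod, Fintype.card_prod, ZMod.card, Fintype.card_fun, Fintype.card_fin,
      Fintype.card_fin, mul_assoc]
  · intro x t
    have key : (R'.conf x t).v.1 = (R.conf x t).v ∧ (R'.conf x t).h = (R.conf x t).h ∧
        (R'.conf x t).tp = (R.conf x t).tp ∧
        (R'.conf x t).v.2.1 = (((R.conf x t).h : ℤ) : ZMod Z) ∧
        ∀ j, ((R'.conf x t).v.2.2 j : ℕ) =
          min (crs Z (σ j) (fun t => (R.conf x t).h) t) (m + 1) := by
      induction t with
      | zero =>
        refine ⟨rfl, rfl, rfl, ?_, ?_⟩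
        · simp [TM.conf, R']
        · intro j
          simp [TM.conf, R', crs]
      | succ t ih =>
        obtain ⟨h1, h2, h3, h4, h5⟩ := ih
        have e : R'.conf x (t + 1) = R'.step x t (R'.conf x t) := rfl
        have e' : R.conf x (t + 1) = R.step x t (R.conf x t) := rfl
        set c' := R'.conf x t with hc'
        set c := R.conf x t with hc
        have h6 : R.op t c'.v.1 (c'.tp c'.h) x = R.op t c.v (c.tp c.h) x := by
          rw [h1, h2, h3]
        rw [e]
        refine ⟨?_, ?_, ?_, ?_, ?_⟩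
        · rw [e']
          change (R.op t c'.v.1 (c'.tp c'.h) x).1 = (R.op t c.v (c.tp c.h) x).1
          rw [h6]
        · rw [e']
          change c'.h + mv (R.op t c'.v.1 (c'.tp c'.h) x).2.2 =
            c.h + mv (R.op t c.v (c.tp c.h) x).2.2
          rw [h6, h2]
        · rw [e']
          change Function.update c'.tp c'.h (R.op t c'.v.1 (c'.tp c'.h) x).2.1 =
            Function.update c.tp c.h (R.op t c.v (c.tp c.h) x).2.1
          rw [h6, h2, h3]
        · rw [e']
          change c'.v.2.1 + ((mv (R.op t c'.v.1 (c'.tp c'.h) x).2.2 : ℤ) : ZMod Z) =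
            ((c.h + mv (R.op t c.v (c.tp c.h) x).2.2 : ℤ) : ZMod Z)
          rw [h6, h4]
          push_cast
          rfl
        · intro j
          change ((nx c'.v.2.1 c'.v.2.2 (R.op t c'.v.1 (c'.tp c'.h) x).2.2 j : Fin (m + 2)) : ℕ) = _
          rw [h6]
          have h7 : crs Z (σ j) (fun t => (R.conf x t).h) (t + 1) =
              crs Z (σ j) (fun t => (R.conf x t).h) t +
                if cr ((c.h : ℤ) : ZMod Z) (σ j) (R.op t c.v (c.tp c.h) x).2.2 then 1 else 0 := by
            unfold crs
            rw [Finset.range_add_one, Finset.filter_insert]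
            have h8 : zn Z (σ j) (R.conf x (t + 1)).h ≠ zn Z (σ j) (R.conf x t).h ↔
                cr ((c.h : ℤ) : ZMod Z) (σ j) (R.op t c.v (c.tp c.h) x).2.2 := by
              rw [e', ← zn_ne hZ]
              rfl
            by_cases h9 : cr ((c.h : ℤ) : ZMod Z) (σ j) (R.op t c.v (c.tp c.h) x).2.2
            · rw [if_pos (h8.2 h9), if_pos h9, Finset.card_insert_of_notMem (by simp)]
            · rw [if_neg (fun h => h9 (h8.1 h)), if_neg h9, add_zero]
          rw [h7]
          have h10 := h5 j
          by_cases h9 : cr ((c.h : ℤ) : ZMod Z) (σ j) (R.op t c.v (c.tp c.h) x).2.2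
          · simp only [nx]
            rw [if_pos (by rw [h4]; exact h9), if_pos h9]
            simp only
            rw [h10]
            omega
          · simp only [nx]
            rw [if_neg (by rw [h4]; exact h9), if_neg h9, add_zero, h10]
    exact ⟨key.1, key.2.1, key.2.2.1, key.2.2.2.2⟩

end Pool.Agent.PPT
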