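import Pool.Agent.PPT.St1
import Pool.Agent.PPS.AUXM
import Pool.Agent.PPS.DECO

/-!
# Project PPT, module AUX: PP mode is a part of PSPACE mode; with `N + 1` coins PP mode gives every
function; automata which read one bit at a time are in the class
-/

set_option autoImplicit false

open Finset
open scoped Classical

namespace Pool.Agent.PPT

/-- The automata with the states `V` which read one given bit at each time `t < T` belong to
`Mst I T b` if there are at most `2 ^ b` nodes. -/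
theorem mst_of_decOs {I V : Type} [Fintype V] {T : ℕ} {σ : Fin T → Fin 1 → I} {b : ℝ}
    (hb : 1 ≤ b) (hN : (((T + 1) * Fintype.card V : ℕ) : ℝ) ≤ (2 : ℝ) ^ b)
    {L : (I → Bool) → Prop} (h : HPM.DecOs 1 I V T σ L) : Mst I T b L :=
  Or.inl (PPS.mcs_of_decOs hb hN h)

theorem t_AUX : S_AUX := by
  refine ⟨fun I τ b W L h => ?_, fun N b L hN hb h2 => ?_⟩
  · refine UM.MODES.pp (fun P c hP => ?_) h
    rcases hP with hP | hP
    · obtain ⟨T, V, G, hV, R, acc, h1, h2, h3, h4⟩ := hP
      exact Or.inl ⟨T, V, G, hV, R, fun _ => c, h1, h2, h3, fun x => Iff.rfl⟩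
    · obtain ⟨T, g, V, G, hV, hG, R, acc, h1, h2, h3, h4, h5, h6, h7⟩ := hP
      exact Or.inr ⟨T, g, V, G, hV, hG, R, fun _ => c, h1, h2, h3, h4, h5, h6, fun x => Iff.rfl⟩
  · obtain ⟨P, hP, hL⟩ := PPL.t_ALLC N L hN
    exact ⟨P, fun w => Or.inl (PPS.AUXx.mcs_of_det hb h2 (P w) (hP w)), hL⟩

end Pool.Agent.PPT
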