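import Pool.Agent.PPT.St1

/-!
# Project PPT: good shifts
-/

set_option autoImplicit false

open Finset
open scoped Classical

namespace Pool.Agent.PPT

namespace AVS

/-- a border between `c - 1` and `c` is at a multiple of `Z` -/
lemma dvd_of_ne {Z : ℕ} (hZ : 1 ≤ Z) {c : ℤ} (h : c / (Z : ℤ) ≠ (c - 1) / (Z : ℤ)) : (Z : ℤ) ∣ c := by
  by_contra hd
  apply h
  have hZ' : (0 : ℤ) < Z := by exact_mod_cast hZ
  have h0 : 0 ≤ c % (Z : ℤ) := Int.emod_nonneg _ hZ'.ne'
  have h1 : c % (Z : ℤ) < Z := Int.emod_lt_of_pos _ hZ'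
  have h2 : c % (Z : ℤ) ≠ 0 := fun h => hd (Int.dvd_of_emod_eq_zero h)
  have h3 : c % (Z : ℤ) + Z * (c / Z) = c := Int.emod_add_mul_ediv c Z
  symm
  refine ((Int.ediv_emod_unique hZ' (a := c - 1) (r := c % (Z : ℤ) - 1) (q := c / Z)).2 ⟨?_, ?_, ?_⟩).1
  · linarith
  · omega
  · omega

lemma eq_of_dvd {Z s s' : ℕ} {c : ℤ} (h : (Z : ℤ) ∣ c + s) (h' : (Z : ℤ) ∣ c + s') (hs : s < Z)
    (hs' : s' < Z) : s = s' := by
  have h2 : (Z : ℤ) ∣ (s : ℤ) - s' := by
    have := dvd_sub h h'
    rwa [add_sub_add_left_eq_sub] at this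
  obtain ⟨k, hk⟩ := h2
  have hk0 : k = 0 := by
    by_contra hne
    rcases lt_or_gt_of_ne hne with hlt | hgt
    · have : (Z : ℤ) * k ≤ -Z := by nlinarith
      omega
    · have : (Z : ℤ) ≤ Z * k := by nlinarith
      omega
  subst hk0
  omega

lemma one_step {Z : ℕ} (hZ : 1 ≤ Z) {a b : ℤ} (h : |b - a| ≤ 1) :
    ((range Z).filter fun s => zn Z s b ≠ zn Z s a).card ≤ if b ≠ a then 1 else 0 := by
  by_cases hab : b = a
  · subst hab
    simp
  · rw [if_pos hab]
    rw [Finset.card_le_one]
    intro s hs s' hs'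
    rw [mem_filter, mem_range] at hs hs'
    obtain ⟨hs, h1⟩ := hs
    obtain ⟨hs', h1'⟩ := hs'
    have hc : b = a + 1 ∨ b = a - 1 := by
      rw [abs_le] at h
      omega
    unfold zn at h1 h1'
    rcases hc with rfl | rfl
    · have e1 : (Z : ℤ) ∣ (a + 1) + s := by
        apply dvd_of_ne hZ
        rwa [show (a + 1 + (s : ℤ) - 1) = a + s by ring]
      have e2 : (Z : ℤ) ∣ (a + 1) + s' := by
        apply dvd_of_ne hZ
        rwa [show (a + 1 + (s' : ℤ) - 1) = a + s' by ring]
      exact eq_of_dvd e1 e2 hs hs'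
    · have e1 : (Z : ℤ) ∣ a + s := by
        apply dvd_of_ne hZ
        rw [show (a + (s : ℤ) - 1) = a - 1 + s by ring]
        exact h1.symm
      have e2 : (Z : ℤ) ∣ a + s' := by
        apply dvd_of_ne hZ
        rw [show (a + (s' : ℤ) - 1) = a - 1 + s' by ring]
        exact h1'.symm
      exact eq_of_dvd e1 e2 hs hs'

lemma sum_crs {Z : ℕ} (hZ : 1 ≤ Z) (h : ℕ → ℤ) (hh : ∀ t, |h (t + 1) - h t| ≤ 1) (T : ℕ) :
    ∑ s ∈ range Z, crs Z s h T ≤ moves h T := by
  unfold crs moves
  simp only [card_filter]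
  rw [sum_comm]
  refine sum_le_sum fun t _ => ?_
  have := one_step hZ (hh t)
  rwa [card_filter] at this

end AVS

open AVS in
theorem t_AVS : S_AVS := by
  intro X _ h Z m T q hZ hh hm
  induction q with
  | zero =>
    refine ⟨Fin.elim0, fun j => j.elim0, ?_⟩
    rw [pow_zero, one_mul]
    exact card_le_univ _
  | succ q ih =>
    obtain ⟨σ, hσ, hc⟩ := ih
    set B : Finset X := univ.filter fun x : X => ∀ j, m < crs Z (σ j) (h x) T with hB
    have key : ∃ s < Z, 2 * (B.filter fun x => m < crs Z s (h x) T).card ≤ B.card := by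
      by_contra hcon
      push Not at hcon
      have h1 : ∑ s ∈ range Z, B.card < ∑ s ∈ range Z,
          2 * (B.filter fun x => m < crs Z s (h x) T).card := by
        refine sum_lt_sum_of_nonempty ⟨0, mem_range.2 (by omega)⟩ fun s hs => ?_
        exact hcon s (mem_range.1 hs)
      rw [sum_const, card_range, smul_eq_mul, ← mul_sum] at h1
      have h2 : (m + 1) * ∑ s ∈ range Z, (B.filter fun x => m < crs Z s (h x) T).card ≤
          ∑ x ∈ B, moves (h x) T := by
        calc (m + 1) * ∑ s ∈ range Z, (B.filter fun x => m < crs Z s (h x) T).card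
            = ∑ s ∈ range Z, ∑ x ∈ B, (m + 1) * (if m < crs Z s (h x) T then 1 else 0) := by
              rw [mul_sum]
              refine sum_congr rfl fun s _ => ?_
              rw [card_filter, mul_sum]
          _ ≤ ∑ s ∈ range Z, ∑ x ∈ B, crs Z s (h x) T := by
              refine sum_le_sum fun s _ => sum_le_sum fun x _ => ?_
              split_ifs with hx
              · omega
              · omega
          _ = ∑ x ∈ B, ∑ s ∈ range Z, crs Z s (h x) T := sum_comm
          _ ≤ _ := sum_le_sum fun x _ => sum_crs hZ (h x) (hh x) T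
      have h3 : 2 * ∑ x ∈ B, moves (h x) T ≤ B.card * ((m + 1) * Z) := by
        rw [mul_sum, ← smul_eq_mul (a := B.card), ← sum_const]
        exact sum_le_sum fun x _ => hm x
      have h4 : (m + 1) * (2 * ∑ s ∈ range Z, (B.filter fun x => m < crs Z s (h x) T).card) ≤
          (m + 1) * (Z * B.card) := by
        calc (m + 1) * (2 * ∑ s ∈ range Z, (B.filter fun x => m < crs Z s (h x) T).card)
            = 2 * ((m + 1) * ∑ s ∈ range Z, (B.filter fun x => m < crs Z s (h x) T).card) := by ring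
          _ ≤ 2 * ∑ x ∈ B, moves (h x) T := Nat.mul_le_mul_left 2 h2
          _ ≤ B.card * ((m + 1) * Z) := h3
          _ = _ := by ring
      have h5 := Nat.le_of_mul_le_mul_left h4 (by omega)
      omega
    obtain ⟨s, hs, h2⟩ := key
    refine ⟨Fin.cons s σ, ?_, ?_⟩
    · intro j
      refine Fin.cases ?_ (fun i => ?_) j
      · simpa using hs
      · simpa using hσ i
    · have he : (univ.filter fun x : X => ∀ j : Fin (q + 1), m < crs Z ((Fin.cons s σ : Fin (q + 1) → ℕ) j) (h x) T) =
          B.filter fun x => m < crs Z s (h x) T := by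
        ext x
        simp only [hB, mem_filter, mem_univ, true_and, Fin.forall_fin_succ, Fin.cons_zero,
          Fin.cons_succ]
        exact and_comm
      rw [he]
      calc 2 ^ (q + 1) * (B.filter fun x => m < crs Z s (h x) T).card
          = 2 ^ q * (2 * (B.filter fun x => m < crs Z s (h x) T).card) := by ring
        _ ≤ 2 ^ q * B.card := Nat.mul_le_mul_left _ h2
        _ ≤ _ := hc

end Pool.Agent.PPT
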