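import Pool.Agent.PPT.St1
import Pool.Agent.PPS.LWC

/-!
# Project PPT: one subcube for the machines with a stack and for those with a tape (helper77)
-/

set_option autoImplicit false

open Finset
open scoped Classical

namespace Pool.Agent.PPT

open Pool.Agent.PPS.LWSP Pool.Agent.PPS.LWCx
open Pool.Agent.PPS (cube)
open Pool.Agent.PPL (par S_GSD Auto sg sgP fP)
open Pool.Agent.PPL.LOWP (HH HH_nonempty HH_card HH_sum auto_mono cop_le emb emb_loc emb_dat sgP_abs)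
open Pool.Agent.URG (VarX VarA deg lg pols Zero)
open Pool.Agent.TKN.ONE (cop pt blk size BV Bas Lay sw dat inp)

namespace LWTx

/-! ## The machines -/

section
variable {M : ℕ} (ly : Lay M) (E : Fin (blk M)) (u : VarX (pt M (E.val + 1)) (E.val + 1) → Bool)
variable {V G : Type}

/-- the machine for the point bits -/
noncomputable def toTM (R : TM (Fin (size M)) V G) :
    TM (Fin (cop (E.val + 1)) × Fin (pt M (E.val + 1))) V G where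
  start := R.start
  init := R.init
  rd t v a := univ.filter fun p => dat (ly.pos E (Sum.inr p)) ∈ R.rd t v a
  op t v a x := R.op t v a (emb ly E u x)
  loc t v a x y h := by
    refine R.loc t v a _ _ fun j hj => emb_loc ly E u x y j fun p hp => h p ?_
    refine Finset.mem_filter.2 ⟨Finset.mem_univ _, ?_⟩
    rw [← hp]
    exact hj

lemma toTM_conf (R : TM (Fin (size M)) V G)
    (x : Fin (cop (E.val + 1)) × Fin (pt M (E.val + 1)) → Bool) (t : ℕ) :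
    (toTM ly E u R).conf x t = R.conf (emb ly E u x) t := by
  induction t with
  | zero => rfl
  | succ t ih =>
    unfold TM.conf
    rw [ih]
    rfl

lemma toTM_rd (R : TM (Fin (size M)) V G) (t : ℕ) (v : V) (a : G) :
    ((toTM ly E u R).rd t v a).card ≤ (R.rd t v a).card := by
  refine Finset.card_le_card_of_injOn (fun p => dat (ly.pos E (Sum.inr p))) ?_ ?_
  · intro p hp
    exact Finset.mem_coe.2 (Finset.mem_filter.1 (Finset.mem_coe.1 hp)).2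
  · intro p _ q _ h
    have h2 : ly.pos E (Sum.inr p) = ly.pos E (Sum.inr q) := by
      unfold dat at h
      exact Fin.natAdd_injective _ _ h
    exact Sum.inr_injective (ly.inj E h2)

lemma toTM_cost (R : TM (Fin (size M)) V G) (g : ℕ)
    (x : Fin (cop (E.val + 1)) × Fin (pt M (E.val + 1)) → Bool) (T : ℕ) :
    (toTM ly E u R).cost g x T ≤ R.cost g (emb ly E u x) T := by
  unfold TM.cost TM.bits
  simp only [toTM_conf]
  exact Nat.add_le_add_right (Finset.sum_le_sum fun t _ => toTM_rd ly E u R t _ _) _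

end

/-! ## Monotonicity -/

lemma mulKS_mono {A1 A2 K0 : ℕ} (h : A1 ≤ A2) (hK : 1 ≤ K0) (h1 : MulKS A1 K0) : MulKS A2 K0 := by
  intro n hn L V G _ R s T K f g hL hs hRK hKn hsn hf hg
  have hpow : K0 ^ (A1 * K0) ≤ K0 ^ (A2 * K0) :=
    Nat.pow_le_pow_right hK (Nat.mul_le_mul_right _ h)
  have hpowR : (K0 : ℝ) ^ (A1 * K0) ≤ (K0 : ℝ) ^ (A2 * K0) := by exact_mod_cast hpow
  have hpos : (0 : ℝ) < (K0 : ℝ) ^ (A1 * K0) := by
    have : (0 : ℝ) < K0 := by exact_mod_cast hK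
    positivity
  have hdiv : (n : ℝ) / (K0 : ℝ) ^ (A2 * K0) ≤ (n : ℝ) / (K0 : ℝ) ^ (A1 * K0) :=
    div_le_div_of_nonneg_left (Nat.cast_nonneg _) hpos hpowR
  have h2 := h1 n (hpow.trans hn) L V G R s T K f g hL hs hRK hKn (hsn.trans hdiv)
    (auto_mono hf hdiv) hg
  refine h2.trans ?_
  have hV : 1 ≤ Fintype.card V := Fintype.card_pos_iff.2 ⟨R.start⟩
  have hbase : 1 ≤ (T + 1) * (K + 1) ^ L * Fintype.card V :=
    Nat.mul_pos (Nat.mul_pos (by omega) (pow_pos (by omega) _)) hV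
  have hbase' : (1 : ℝ) ≤ (((T + 1) * (K + 1) ^ L * Fintype.card V : ℕ) : ℝ) := by
    exact_mod_cast hbase
  have h3 : (((T + 1) * (K + 1) ^ L * Fintype.card V : ℕ) : ℝ) ^ (K0 ^ A1 + 1) ≤
      (((T + 1) * (K + 1) ^ L * Fintype.card V : ℕ) : ℝ) ^ (K0 ^ A2 + 1) :=
    pow_le_pow_right₀ hbase' (Nat.add_le_add_right (Nat.pow_le_pow_right hK h) 1)
  have h4 : (2 : ℝ) ^ (-((n : ℝ) / (K0 : ℝ) ^ (A1 * K0))) ≤
      (2 : ℝ) ^ (-((n : ℝ) / (K0 : ℝ) ^ (A2 * K0))) :=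
    Real.rpow_le_rpow_of_exponent_le one_le_two (neg_le_neg hdiv)
  gcongr

/-- `S_MLT` for one `k` -/
def MulKT (A1 k : ℕ) : Prop := ∀ B : ℕ, 1024 ≤ B → k ≤ B → k ^ (A1 * k) ≤ B →
  ∀ n : ℕ, B ^ 20 ≤ n →
  ∀ (L : ℕ) (V G : Type) [Fintype V] [Fintype G] (R : TM (Fin L × Fin n) V G)
    (s T K g : ℕ) (f : (Fin n → Bool) → Bool) (gg : V → ℝ), 1 ≤ L → L ≤ B → 1 ≤ g →
  16 * B ^ 2 * g ≤ n → Fintype.card G ≤ 2 ^ g → (∀ t v a, (R.rd t v a).card ≤ s) →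
  (∀ x, R.cost g x T ≤ K) → 8 * K ≤ k * (n * L) →
  (s : ℝ) ≤ (n : ℝ) / k ^ (A1 * k) → Auto f ((n : ℝ) / k ^ (A1 * k)) → (∀ v, |gg v| ≤ 1) →
  |∑ x : Fin L × Fin n → Bool, gg (R.conf x T).v * ∏ l, sg (f fun j => x (l, j))| ≤
    (((T + 1) * Fintype.card V : ℕ) : ℝ) ^ B ^ 5 * 2 ^ (L * n) *
      (2 : ℝ) ^ (-((n : ℝ) / (B : ℝ) ^ 11))

lemma mulKT_mono {A1 A2 k : ℕ} (h : A1 ≤ A2) (hk : 1 ≤ k) (h1 : MulKT A1 k) : MulKT A2 k := by
  intro B hB hkB hAB n hn L V G _ _ R s T K g f gg hL hLB hg hgn hG hs hK hKn hsn hf hgg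
  have hpow : k ^ (A1 * k) ≤ k ^ (A2 * k) := Nat.pow_le_pow_right hk (Nat.mul_le_mul_right _ h)
  have hpowR : (k : ℝ) ^ (A1 * k) ≤ (k : ℝ) ^ (A2 * k) := by exact_mod_cast hpow
  have hpos : (0 : ℝ) < (k : ℝ) ^ (A1 * k) := by
    have : (0 : ℝ) < k := by exact_mod_cast hk
    positivity
  have hdiv : (n : ℝ) / (k : ℝ) ^ (A2 * k) ≤ (n : ℝ) / (k : ℝ) ^ (A1 * k) :=
    div_le_div_of_nonneg_left (Nat.cast_nonneg _) hpos hpowR
  exact h1 B hB hkB (hpow.trans hAB) n hn L V G R s T K g f gg hL hLB hg hgn hG hs hK hKn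
    (hsn.trans hdiv) (auto_mono hf hdiv) hgg

/-! ## Numbers -/

lemma num_W2 (A1 k : ℕ) (hk : 2 ≤ k) :
    2 ^ 463 * ((48 * k) ^ (A1 * (48 * k))) ^ 42 * k ≤ k ^ ((14112 * A1 + 464) * k) := by
  have h12 : 48 * k ≤ k ^ 7 := by
    have h1 : 2 ^ 6 ≤ k ^ 6 := Nat.pow_le_pow_left hk 6
    have h2 : k ^ 7 = k ^ 6 * k := by ring
    rw [h2]
    exact Nat.mul_le_mul_right k (by omega)
  have h3 : ((48 * k) ^ (A1 * (48 * k))) ^ 42 ≤ k ^ (14112 * A1 * k) := by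
    calc ((48 * k) ^ (A1 * (48 * k))) ^ 42 ≤ ((k ^ 7) ^ (A1 * (48 * k))) ^ 42 :=
          Nat.pow_le_pow_left (Nat.pow_le_pow_left h12 _) _
      _ = k ^ (14112 * A1 * k) := by
          rw [← pow_mul, ← pow_mul]
          congr 1
          ring
  have h4 : 2 ^ 463 * k ≤ k ^ (464 * k) := by
    calc 2 ^ 463 * k ≤ k ^ 463 * k := Nat.mul_le_mul_right k (Nat.pow_le_pow_left hk _)
      _ = k ^ (463 + 1) := (pow_succ _ _).symm
      _ ≤ k ^ (464 * k) := Nat.pow_le_pow_right (by omega) (by nlinarith)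
  calc 2 ^ 463 * ((48 * k) ^ (A1 * (48 * k))) ^ 42 * k
      = ((48 * k) ^ (A1 * (48 * k))) ^ 42 * (2 ^ 463 * k) := by ring
    _ ≤ k ^ (14112 * A1 * k) * k ^ (464 * k) := Nat.mul_le_mul h3 h4
    _ = k ^ ((14112 * A1 + 464) * k) := by
        rw [← pow_add]
        congr 1
        ring

/-- the final estimate -/
lemma final2 (N n L B : ℕ) (W cV : ℝ) (hB : 1024 ≤ B) (hW : 2 * (B : ℝ) ^ 21 ≤ W)
    (hN : N ≤ 6 * (n * B)) (hc0 : 0 ≤ cV) (hc : cV ≤ (2 : ℝ) ^ (1 / W * N)) :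
    cV ^ B ^ 5 * 2 ^ (L * n) * (2 : ℝ) ^ (-((n : ℝ) / (B : ℝ) ^ 11)) ≤
      (2 : ℝ) ^ (-(1 / W * N)) * 2 ^ (L * n) := by
  have hB' : (1024 : ℝ) ≤ B := by exact_mod_cast hB
  have hB0 : (0 : ℝ) < B := by linarith
  have hW0 : 0 < W := lt_of_lt_of_le (by positivity) hW
  have hN' : (N : ℝ) ≤ 6 * (n * B) := by exact_mod_cast hN
  have h1 : cV ^ B ^ 5 ≤ (2 : ℝ) ^ (1 / W * N * ((B ^ 5 : ℕ) : ℝ)) := by
    rw [Real.rpow_mul two_pos.le, Real.rpow_natCast]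
    exact pow_le_pow_left₀ hc0 hc _
  have h2 : 1 / W * N * ((B ^ 5 : ℕ) : ℝ) + -((n : ℝ) / (B : ℝ) ^ 11) ≤ -(1 / W * N) := by
    have h3 : 1 / W * N * ((B : ℝ) ^ 5 + 1) ≤ (n : ℝ) / (B : ℝ) ^ 11 := by
      rw [one_div, inv_mul_eq_div, div_mul_eq_mul_div, div_le_div_iff₀ hW0 (by positivity)]
      have h4 : (B : ℝ) ^ 5 + 1 ≤ 2 * (B : ℝ) ^ 5 := by
        have : (1 : ℝ) ≤ (B : ℝ) ^ 5 := one_le_pow₀ (by linarith)
        linarith
      have hn0 : (0 : ℝ) ≤ n := Nat.cast_nonneg _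
      calc (N : ℝ) * ((B : ℝ) ^ 5 + 1) * (B : ℝ) ^ 11
          ≤ (6 * (n * B)) * (2 * (B : ℝ) ^ 5) * (B : ℝ) ^ 11 := by gcongr
        _ = (n : ℝ) * (12 * (B : ℝ) ^ 17) := by ring
        _ ≤ (n : ℝ) * (2 * (B : ℝ) ^ 21) := by
            refine mul_le_mul_of_nonneg_left ?_ hn0
            have h5 : (6 : ℝ) ≤ (B : ℝ) ^ 4 := by
              have h6 : (1024 : ℝ) ^ 4 ≤ (B : ℝ) ^ 4 := pow_le_pow_left₀ (by norm_num) hB' 4
              linarith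
            have h7 : (B : ℝ) ^ 21 = (B : ℝ) ^ 17 * (B : ℝ) ^ 4 := by ring
            rw [h7]
            have h8 : (0 : ℝ) < (B : ℝ) ^ 17 := by positivity
            nlinarith
        _ ≤ (n : ℝ) * W := mul_le_mul_of_nonneg_left hW hn0
    push_cast
    linarith
  calc cV ^ B ^ 5 * 2 ^ (L * n) * (2 : ℝ) ^ (-((n : ℝ) / (B : ℝ) ^ 11))
      = cV ^ B ^ 5 * (2 : ℝ) ^ (-((n : ℝ) / (B : ℝ) ^ 11)) * 2 ^ (L * n) := by ring
    _ ≤ (2 : ℝ) ^ (1 / W * N * ((B ^ 5 : ℕ) : ℝ)) * (2 : ℝ) ^ (-((n : ℝ) / (B : ℝ) ^ 11)) *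
          2 ^ (L * n) := by gcongr
    _ = (2 : ℝ) ^ (1 / W * N * ((B ^ 5 : ℕ) : ℝ) + -((n : ℝ) / (B : ℝ) ^ 11)) * 2 ^ (L * n) := by
        rw [Real.rpow_add two_pos]
    _ ≤ (2 : ℝ) ^ (-(1 / W * N)) * 2 ^ (L * n) := by
        refine mul_le_mul_of_nonneg_right ?_ (by positivity)
        exact Real.rpow_le_rpow_of_exponent_le one_le_two h2

lemma nums (M N n L B Q : ℕ) (W : ℝ) (hQ : 1 ≤ Q) (hBQ : B = 2 ^ 22 * Q ^ 2)
    (hW1 : 2 * (B : ℝ) ^ 21 ≤ W) (hW2 : W ≤ M) (hN : N ≤ 3 * M) (hL : L ≤ B)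
    (hMn : M ≤ 2 * (n * L)) :
    1024 ≤ B ∧ Q ≤ B ∧ B ^ 20 ≤ n ∧ N ≤ 6 * (n * L) ∧ N ≤ 6 * (n * B) ∧ 0 < W ∧
      (1 / W * N : ℝ) ≤ (n : ℝ) / (Q : ℝ) ∧
      ∀ g : ℕ, (g : ℝ) ≤ 1 / W * N → 16 * B ^ 2 * g ≤ n := by
  have hQ2 : Q ≤ Q ^ 2 := by nlinarith
  have hB1 : 1024 ≤ B := by
    rw [hBQ]
    have : 1 ≤ Q ^ 2 := Nat.one_le_pow _ _ hQ
    nlinarith
  have hQB : Q ≤ B := by
    rw [hBQ]
    nlinarith
  have hB' : (1024 : ℝ) ≤ B := by exact_mod_cast hB1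
  have hB0 : (0 : ℝ) < B := by linarith
  have hW0 : 0 < W := lt_of_lt_of_le (by positivity) hW1
  have hN1 : N ≤ 6 * (n * L) := by omega
  have hnL : n * L ≤ n * B := Nat.mul_le_mul_left _ hL
  have hN2 : N ≤ 6 * (n * B) := by omega
  have hN2' : (N : ℝ) ≤ 6 * (n * B) := by exact_mod_cast hN2
  have hn0 : (0 : ℝ) ≤ n := Nat.cast_nonneg _
  have hn : B ^ 20 ≤ n := by
    have h1 : 2 * B ^ 21 ≤ M := by exact_mod_cast hW1.trans hW2
    have h2 : B ^ 20 * B ≤ n * B := by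
      have h3 : B ^ 20 * B = B ^ 21 := (pow_succ _ _).symm
      rw [h3]
      omega
    exact Nat.le_of_mul_le_mul_right h2 (by omega)
  have hpow : ∀ j : ℕ, 4 ≤ j → (96 : ℝ) * (B : ℝ) ^ 3 ≤ 2 * (B : ℝ) ^ j := by
    intro j hj
    have h1 : (B : ℝ) ^ 4 ≤ (B : ℝ) ^ j := pow_le_pow_right₀ (by linarith) hj
    have h2 : (B : ℝ) ^ 4 = (B : ℝ) ^ 3 * B := by ring
    have h3 : (0 : ℝ) < (B : ℝ) ^ 3 := by positivity
    nlinarith
  refine ⟨hB1, hQB, hn, hN1, hN2, hW0, ?_, ?_⟩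
  · have hQ' : (0 : ℝ) < Q := by exact_mod_cast hQ
    have hQB' : (Q : ℝ) ≤ B := by exact_mod_cast hQB
    rw [one_div, inv_mul_eq_div, div_le_div_iff₀ hW0 hQ']
    calc (N : ℝ) * Q ≤ (6 * (n * B)) * B := by gcongr
      _ = (n : ℝ) * (6 * (B : ℝ) ^ 2) := by ring
      _ ≤ (n : ℝ) * (2 * (B : ℝ) ^ 21) := by
          refine mul_le_mul_of_nonneg_left ?_ hn0
          refine le_trans ?_ (hpow 21 (by norm_num))
          have h3 : (0 : ℝ) < (B : ℝ) ^ 2 := by positivity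
          have h2 : (B : ℝ) ^ 3 = (B : ℝ) ^ 2 * B := by ring
          nlinarith
      _ ≤ (n : ℝ) * W := mul_le_mul_of_nonneg_left hW1 hn0
  · intro g hg
    have h1 : (16 * (B : ℝ) ^ 2 * g) ≤ n := by
      have h2 : 16 * (B : ℝ) ^ 2 * g ≤ 16 * (B : ℝ) ^ 2 * (1 / W * N) :=
        mul_le_mul_of_nonneg_left hg (by positivity)
      refine h2.trans ?_
      have h3 : 16 * (B : ℝ) ^ 2 * (1 / W * N) = (16 * (B : ℝ) ^ 2 * N) / W := by
        field_simp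
      rw [h3, div_le_iff₀ hW0]
      calc 16 * (B : ℝ) ^ 2 * N ≤ 16 * (B : ℝ) ^ 2 * (6 * (n * B)) := by gcongr
        _ = (n : ℝ) * (96 * (B : ℝ) ^ 3) := by ring
        _ ≤ (n : ℝ) * (2 * (B : ℝ) ^ 21) := mul_le_mul_of_nonneg_left (hpow 21 (by norm_num)) hn0
        _ ≤ (n : ℝ) * W := mul_le_mul_of_nonneg_left hW1 hn0
    exact_mod_cast h1

lemma core2 (A1 k M B : ℕ) (hk : 2 ≤ k) (hA1 : 1 ≤ A1) (hMul : MulKT A1 (48 * k))
    (hBd : B = 2 ^ 22 * ((48 * k) ^ (A1 * (48 * k))) ^ 2)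
    (W : ℝ) (hW1 : 2 * (B : ℝ) ^ 21 ≤ W) (hW2 : W ≤ M)
    (β : Bas M) (ly : Lay M) (E : Fin (blk M)) (u : VarX (pt M (E.val + 1)) (E.val + 1) → Bool)
    (hN : size M ≤ 3 * M) (hL1 : 1 ≤ cop (E.val + 1)) (hL : cop (E.val + 1) ≤ B)
    (hMn : M ≤ 2 * (pt M (E.val + 1) * cop (E.val + 1)))
    (hAuto : Auto (par (β E) u) ((pt M (E.val + 1) : ℝ) / ((48 * k) ^ (A1 * (48 * k)) : ℕ)))
    (P : (Fin (size M) → Bool) → Prop)
    (hP : Mct (Fin (size M)) (k * size M) (1 / W * size M) P) :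
    |∑ v ∈ HH ly E u, sgP (P v) * sgP (fP β ly v = true)| ≤
      (2 : ℝ) ^ (-(1 / W * size M)) * (HH ly E u).card := by
  obtain ⟨T, g, V, G, _, _, R, acc, hg1, hgb, hG, hTV, hRb, hRK, hacc⟩ := hP
  rw [HH_sum, HH_card]
  have hQ : 1 ≤ (48 * k) ^ (A1 * (48 * k)) := Nat.one_le_pow _ _ (by omega)
  have hkQ : 48 * k ≤ (48 * k) ^ (A1 * (48 * k)) := by
    calc 48 * k = (48 * k) ^ 1 := (pow_one _).symm
      _ ≤ (48 * k) ^ (A1 * (48 * k)) := Nat.pow_le_pow_right (by omega) (by nlinarith)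
  have hcast : (((48 * k : ℕ) : ℝ)) ^ (A1 * (48 * k)) = (((48 * k) ^ (A1 * (48 * k)) : ℕ) : ℝ) := by
    push_cast
    rfl
  obtain ⟨hB1, hQB, hn, hN1, hN2, hW0, hNQ, hgn⟩ := nums M (size M) (pt M (E.val + 1))
    (cop (E.val + 1)) B _ W hQ hBd hW1 hW2 hN hL hMn
  -- the number of the bits read at once
  have hb0 : (0 : ℝ) ≤ 1 / W * size M := by positivity
  obtain ⟨s, hsdef⟩ : ∃ s : ℕ, s = ⌊(1 / W * size M : ℝ)⌋₊ := ⟨_, rfl⟩
  have hs : (s : ℝ) ≤ 1 / W * size M := by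
    rw [hsdef]
    exact Nat.floor_le hb0
  have hRs : ∀ t v a, (R.rd t v a).card ≤ s := by
    intro t v a
    rw [hsdef]
    exact Nat.le_floor (hRb t v a)
  have hs' : (s : ℝ) ≤ (pt M (E.val + 1) : ℝ) / ((48 * k : ℕ) : ℝ) ^ (A1 * (48 * k)) := by
    rw [hcast]
    exact hs.trans hNQ
  have hAuto' : Auto (par (β E) u)
      ((pt M (E.val + 1) : ℝ) / ((48 * k : ℕ) : ℝ) ^ (A1 * (48 * k))) := by
    rw [hcast]
    exact hAuto
  have hRK' : ∀ x, (toTM ly E u R).cost g x T ≤ k * size M := by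
    intro x
    refine (toTM_cost ly E u R g x T).trans ?_
    have h2 := hRK (emb ly E u x)
    exact_mod_cast h2
  have h1 := hMul B hB1 (hkQ.trans hQB) hQB (pt M (E.val + 1)) hn (cop (E.val + 1)) V G
    (toTM ly E u R) s T (k * size M) g (par (β E) u) (fun v => sgP (acc v)) hL1 hL hg1
    (hgn g hgb) hG (fun t v a => (toTM_rd ly E u R t v a).trans (hRs t v a)) hRK'
    (by nlinarith) hs' hAuto' fun v => sgP_abs _
  have h2 : ∀ x : Fin (cop (E.val + 1)) × Fin (pt M (E.val + 1)) → Bool,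
      sgP (P (emb ly E u x)) = sgP (acc ((toTM ly E u R).conf x T).v) := by
    intro x
    rw [toTM_conf]
    congr 1
    exact propext (hacc _)
  simp only [h2]
  refine h1.trans ?_
  have h3 := final2 (size M) (pt M (E.val + 1)) (cop (E.val + 1)) B W
    (((T + 1) * Fintype.card V : ℕ) : ℝ) hB1 hW1 hN2 (Nat.cast_nonneg _) hTV
  refine h3.trans (le_of_eq ?_)
  push_cast
  rfl

end LWTx

open LWTx in
theorem t_LWT (hMLS : PPS.S_MLS) (hMLT : S_MLT) (hGSD : PPL.S_GSD) (hSIZ : TKN.ONE.S_SIZ) :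
    S_LWT := by
  obtain ⟨A1, hA1⟩ := hMLS
  obtain ⟨A2, hA2⟩ := hMLT
  obtain ⟨A, h1A, h2A, hA⟩ : ∃ A : ℕ, A1 ≤ A ∧ A2 ≤ A ∧ 1 ≤ A := ⟨A1 + A2 + 1, by omega, by omega,
    by omega⟩
  refine ⟨14112 * A + 464, fun k M hk hM β ly => ?_⟩
  have hMul : MulKS A (48 * k) :=
    mulKS_mono h1A (by omega) fun n hn => hA1 (48 * k) (by omega) n hn
  have hMul2 : MulKT A (48 * k) :=
    mulKT_mono h2A (by omega) fun B h1 h2 h3 => hA2 (48 * k) (by omega) B h1 h2 h3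
  have hW' := num_W2 A k hk
  have hQ : 1 ≤ (48 * k) ^ (A * (48 * k)) := Nat.one_le_pow _ _ (by omega)
  have hW : 2 ^ 102 * ((48 * k) ^ (A * (48 * k))) ^ 12 * k ≤ k ^ ((14112 * A + 464) * k) := by
    refine le_trans ?_ hW'
    exact Nat.mul_le_mul_right _ (Nat.mul_le_mul (Nat.pow_le_pow_right (by omega) (by omega))
      (Nat.pow_le_pow_right hQ (by norm_num)))
  have hWM := hW.trans hM
  obtain ⟨B, hBd⟩ : ∃ B : ℕ, B = 2 ^ 22 * ((48 * k) ^ (A * (48 * k))) ^ 2 := ⟨_, rfl⟩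
  have hWB : 2 * B ^ 21 ≤ k ^ ((14112 * A + 464) * k) := by
    refine le_trans ?_ hW'
    rw [hBd]
    generalize (48 * k) ^ (A * (48 * k)) = Q
    have h1 : 2 * (2 ^ 22 * Q ^ 2) ^ 21 = 2 ^ 463 * Q ^ 42 * 1 := by
      rw [mul_pow, ← pow_mul, ← pow_mul, mul_one, ← mul_assoc]
      show 2 * 2 ^ 462 * Q ^ 42 = 2 ^ (462 + 1) * Q ^ 42
      rw [pow_succ' 2 462]
    rw [h1]
    exact Nat.mul_le_mul_left _ (by omega)
  set Q := (48 * k) ^ (A * (48 * k)) with hQdef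
  -- the parameter
  obtain ⟨e0, he0, he1⟩ : ∃ e0 : ℕ, 64 * Q ≤ 4 ^ (e0 + 1) ∧ 4 ^ (e0 + 1) ≤ 256 * Q := by
    have h1 : 1 < 64 * Q := by omega
    have h2 : 64 * Q ≤ 4 ^ Nat.clog 4 (64 * Q) := Nat.le_pow_clog (by norm_num) _
    have h3 : 4 ^ (Nat.clog 4 (64 * Q)).pred < 64 * Q := Nat.pow_pred_clog_lt_self (by norm_num) h1
    have h4 : 0 < Nat.clog 4 (64 * Q) := Nat.clog_pos (by norm_num) h1
    refine ⟨(Nat.clog 4 (64 * Q)).pred, ?_, ?_⟩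
    · rw [← Nat.succ_eq_add_one, Nat.succ_pred_eq_of_pos h4]
      exact h2
    · rw [pow_succ]
      omega
  have he2 : 2 ≤ e0 + 1 := by
    by_contra h
    have : e0 = 0 := by omega
    subst this
    omega
  -- `2 ^ 56 ≤ M`
  have hQ12 : 1 ≤ Q ^ 12 := Nat.one_le_pow _ _ hQ
  have hM56 : 2 ^ 56 ≤ M := by
    refine le_trans ?_ hWM
    calc 2 ^ 56 ≤ 2 ^ 102 * 1 * 1 := by norm_num
      _ ≤ 2 ^ 102 * Q ^ 12 * k := Nat.mul_le_mul (Nat.mul_le_mul_left _ hQ12) (by omega)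
  obtain ⟨⟨hsz1, hsz2⟩, hb1, hsiz⟩ := hSIZ M hM56
  -- the parameter is in the range
  have hblk : e0 + 1 ≤ blk M := by
    unfold blk lg
    rw [Nat.le_div_iff_mul_le (by norm_num)]
    have h1 : 2 ^ ((e0 + 1) * 8) ≤ M := by
      have h2 : 2 ^ ((e0 + 1) * 8) = (4 ^ (e0 + 1)) ^ 4 := by
        rw [← pow_mul, show (4 : ℕ) = 2 ^ 2 by norm_num, ← pow_mul]
        congr 1
        ring
      rw [h2]
      refine le_trans (Nat.pow_le_pow_left he1 4) (le_trans ?_ hWM)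
      calc (256 * Q) ^ 4 = 2 ^ 32 * Q ^ 4 := by ring
        _ ≤ 2 ^ 102 * Q ^ 12 * 1 := by
            rw [mul_one]
            exact Nat.mul_le_mul (by norm_num) (Nat.pow_le_pow_right hQ (by norm_num))
        _ ≤ 2 ^ 102 * Q ^ 12 * k := Nat.mul_le_mul_left _ (by omega)
    have h3 : (e0 + 1) * 8 ≤ Nat.log 2 M := Nat.le_log_of_pow_le (by norm_num) h1
    omega
  obtain ⟨hpt2, -, hcop1, -, -, -, -, hMn⟩ := hsiz (e0 + 1) (by omega) hblk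
  have hcop : cop (e0 + 1) ≤ 2 ^ 22 * Q ^ 2 := by
    refine (cop_le (e0 + 1)).trans ?_
    calc 64 * (4 ^ (e0 + 1)) ^ 2 ≤ 64 * (256 * Q) ^ 2 :=
          Nat.mul_le_mul_left _ (Nat.pow_le_pow_left he1 2)
      _ = 2 ^ 22 * Q ^ 2 := by ring
  have h64 : 64 ^ (e0 + 1) ≤ pt M (e0 + 1) := by
    by_contra hlt
    push Not at hlt
    have h1 : 64 ^ (e0 + 1) = (4 ^ (e0 + 1)) ^ 3 := by
      rw [← pow_mul, show (64 : ℕ) = 4 ^ 3 by norm_num, ← pow_mul]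
      congr 1
      ring
    have h2 : 64 ^ (e0 + 1) ≤ (256 * Q) ^ 3 := by
      rw [h1]
      exact Nat.pow_le_pow_left he1 3
    have h3 : M ≤ 2 * ((256 * Q) ^ 3 * (2 ^ 22 * Q ^ 2)) :=
      hMn.trans (Nat.mul_le_mul_left _ (Nat.mul_le_mul (hlt.le.trans h2) hcop))
    have h4 : 2 * ((256 * Q) ^ 3 * (2 ^ 22 * Q ^ 2)) = 2 ^ 47 * Q ^ 5 := by ring
    rw [h4] at h3
    have h5 : Q ^ 5 ≤ Q ^ 12 := Nat.pow_le_pow_right hQ (by norm_num)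
    have h6 : Q ^ 12 * 1 ≤ Q ^ 12 * k := Nat.mul_le_mul_left _ (by omega)
    have h7 : 2 ^ 102 * Q ^ 12 * k = 2 ^ 102 * (Q ^ 12 * k) := by ring
    rw [h7] at hWM
    have h8 : 2 ^ 47 * Q ^ 5 < 2 ^ 102 * (Q ^ 12 * k) := by
      calc 2 ^ 47 * Q ^ 5 ≤ 2 ^ 47 * (Q ^ 12 * k) := Nat.mul_le_mul_left _ (by omega)
        _ < 2 ^ 102 * (Q ^ 12 * k) := Nat.mul_lt_mul_of_pos_right (by norm_num) (by omega)
    omega
  -- the seeds
  obtain ⟨u, hu⟩ := hGSD (pt M (e0 + 1)) (e0 + 1) (β ⟨e0, hblk⟩) he2 h64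
  have hAuto : Auto (par (β ⟨e0, hblk⟩) u) ((pt M (e0 + 1) : ℝ) / (Q : ℕ)) := by
    refine auto_mono hu ?_
    have h1 : (64 : ℝ) * (Q : ℕ) ≤ 4 ^ (e0 + 1) := by exact_mod_cast he0
    have h2 : (0 : ℝ) < (Q : ℕ) := by exact_mod_cast hQ
    have h3 : (0 : ℝ) ≤ (pt M (e0 + 1) : ℝ) := Nat.cast_nonneg _
    rw [div_le_div_iff₀ (by positivity) h2]
    nlinarith
  have hcast : ((k : ℝ)) ^ ((14112 * A + 464) * k) = ((k ^ ((14112 * A + 464) * k) : ℕ) : ℝ) := by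
    push_cast
    rfl
  refine ⟨DD ly ⟨e0, hblk⟩, emb ly ⟨e0, hblk⟩ u fun _ => false, ?_, fun P hP => ?_⟩
  · rw [DD_card]
    have h1 : M ≤ 2 * (pt M (e0 + 1) * cop (e0 + 1)) := hMn
    have h2 : cop (e0 + 1) * pt M (e0 + 1) = pt M (e0 + 1) * cop (e0 + 1) := Nat.mul_comm _ _
    show size M ≤ 6 * (cop (e0 + 1) * pt M (e0 + 1))
    rw [h2]
    omega
  · have h1 : |∑ v ∈ HH ly ⟨e0, hblk⟩ u, sgP (P v) * sgP (fP β ly v = true)| ≤
        (2 : ℝ) ^ (-(1 / (k : ℝ) ^ ((14112 * A + 464) * k) * size M)) *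
          (HH ly ⟨e0, hblk⟩ u).card := by
      rcases hP with hP | hP
      · exact core A k M hk hMul hWM ((k : ℝ) ^ ((14112 * A + 464) * k))
          (by rw [hcast]; exact_mod_cast hW) (by rw [hcast]; exact_mod_cast hM) β ly ⟨e0, hblk⟩ u
          (by omega) hcop1 hcop hMn hAuto P hP
      · exact core2 A k M B hk hA hMul2 hBd ((k : ℝ) ^ ((14112 * A + 464) * k))
          (by rw [hcast]; exact_mod_cast hWB) (by rw [hcast]; exact_mod_cast hM) β ly ⟨e0, hblk⟩ u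
          (by omega) hcop1 (by rw [hBd]; exact hcop) hMn hAuto P hP
    rw [HH_card, HH_eq] at h1
    rw [DD_card]
    push_cast at h1
    exact h1

end Pool.Agent.PPT
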