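import Pool.Agent.PPT.St1

/-!
# Project PPT, module MLT: the choice of the numbers

`Z = n / (16 B ^ 2 g)`, `m = 8 B ^ 4`, `q = n / B ^ 10`.
-/

set_option autoImplicit false

open Finset
open scoped Classical

namespace Pool.Agent.PPT

namespace MLTP

/-- the binary length -/
theorem exl (n : ℕ) (hn : 64 ≤ n) : ∃ l : ℕ, n ≤ 2 ^ l ∧ l * l ≤ n ∧ 1 ≤ l := by
  have h1 : ∀ j : ℕ, 6 ≤ j → (j + 1) * (j + 1) ≤ 2 ^ j := by
    intro j hj
    induction j, hj using Nat.le_induction with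
    | base => norm_num
    | succ j hj ih =>
      have : 2 ^ (j + 1) = 2 * 2 ^ j := by ring
      rw [this]
      nlinarith
  have h2 : 6 ≤ Nat.log 2 n := by
    have := Nat.le_log_of_pow_le (b := 2) (x := 6) (y := n) (by norm_num) (by norm_num; omega)
    exact this
  refine ⟨Nat.log 2 n + 1, (Nat.lt_pow_succ_log_self (by norm_num) n).le,
    (h1 _ h2).trans (Nat.pow_log_le_self 2 (by omega)), by omega⟩

theorem nA1 (B n E q : ℕ) (hB : 1024 ≤ B) (hE : E ≤ 2 * B) (hq : q * B ^ 10 ≤ n) :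
    8 * B * ((8 * B ^ 4 + 2) * q * (8 * B ^ 4 + 1 + E)) ≤ n := by
  have hB4 : B ≤ B ^ 4 := Nat.le_self_pow (by norm_num) B
  have hB4' : 4 * B ≤ B ^ 4 := by
    have : B ^ 4 = B * B ^ 3 := by ring
    have h3 : 4 ≤ B ^ 3 := by
      calc 4 ≤ B := by omega
        _ ≤ B ^ 3 := Nat.le_self_pow (by norm_num) B
    rw [this]
    nlinarith
  have h1 : 8 * B ^ 4 + 2 ≤ 9 * B ^ 4 := by omega
  have h2 : 8 * B ^ 4 + 1 + E ≤ 9 * B ^ 4 := by omega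
  calc 8 * B * ((8 * B ^ 4 + 2) * q * (8 * B ^ 4 + 1 + E))
      ≤ 8 * B * ((9 * B ^ 4) * q * (9 * B ^ 4)) := by gcongr
    _ = 648 * (q * B ^ 9) := by ring
    _ ≤ B * (q * B ^ 9) := by
        apply Nat.mul_le_mul_right
        omega
    _ = q * B ^ 10 := by ring
    _ ≤ n := hq

theorem nA2 (B n E g Z : ℕ) (hE : E ≤ 2 * B) (hZ : 16 * B ^ 2 * g * Z ≤ n) :
    8 * B * (g * Z * E) ≤ n := by
  calc 8 * B * (g * Z * E) ≤ 8 * B * (g * Z * (2 * B)) := by gcongr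
    _ = 16 * B ^ 2 * g * Z := by ring
    _ ≤ n := hZ

theorem nA3 (B n E L l : ℕ) (hB : 1024 ≤ B) (hE : E ≤ 2 * B) (hL : L ≤ B) (hn : B ^ 20 ≤ n)
    (hl : l * l ≤ n) (hl1 : 1 ≤ l) :
    8 * B * (l + (1 + l) * (8 * B ^ 4 + 1) + l * (2 * L + 5) * E) ≤ n := by
  have h1 : l + (1 + l) * (8 * B ^ 4 + 1) + l * (2 * L + 5) * E ≤ 17 * B ^ 4 * l := by
    have e1 : l * (2 * L + 5) * E ≤ l * (2 * B + 5) * (2 * B) := by gcongr
    have e2 : (1 + l) * (8 * B ^ 4 + 1) ≤ (2 * l) * (8 * B ^ 4 + 1) := by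
      apply Nat.mul_le_mul_right
      omega
    have e3 : 3 + (2 * B + 5) * (2 * B) ≤ B ^ 4 := by
      have : B ^ 4 = B ^ 2 * B ^ 2 := by ring
      have h2 : 1024 * B ≤ B ^ 2 := by nlinarith
      have h3 : 1024 ≤ B ^ 2 := by nlinarith
      rw [this]
      nlinarith
    have e4 : l * (3 + (2 * B + 5) * (2 * B)) ≤ l * B ^ 4 := Nat.mul_le_mul_left _ e3
    calc l + (1 + l) * (8 * B ^ 4 + 1) + l * (2 * L + 5) * E
        ≤ l + (2 * l) * (8 * B ^ 4 + 1) + l * (2 * B + 5) * (2 * B) := by omega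
      _ = 16 * B ^ 4 * l + l * (3 + (2 * B + 5) * (2 * B)) := by ring
      _ ≤ 16 * B ^ 4 * l + l * B ^ 4 := by omega
      _ = 17 * B ^ 4 * l := by ring
  have h2 : 136 * B ^ 5 * l ≤ n := by
    have h3 : (136 * B ^ 5 * l) * (136 * B ^ 5 * l) ≤ n * n := by
      have h4 : 18496 ≤ B ^ 10 := by
        calc 18496 ≤ 1024 ^ 2 := by norm_num
          _ ≤ B ^ 2 := Nat.pow_le_pow_left hB 2
          _ ≤ B ^ 10 := Nat.pow_le_pow_right (by omega) (by norm_num)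
      calc (136 * B ^ 5 * l) * (136 * B ^ 5 * l) = 18496 * B ^ 10 * (l * l) := by ring
        _ ≤ B ^ 10 * B ^ 10 * (l * l) := by gcongr
        _ = B ^ 20 * (l * l) := by ring
        _ ≤ n * n := Nat.mul_le_mul hn hl
    exact Nat.mul_self_le_mul_self_iff.mp h3
  calc 8 * B * (l + (1 + l) * (8 * B ^ 4 + 1) + l * (2 * L + 5) * E)
      ≤ 8 * B * (17 * B ^ 4 * l) := by gcongr
    _ = 136 * B ^ 5 * l := by ring
    _ ≤ n := h2

theorem pow_help (P l x y a E : ℕ) :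
    2 ^ l * ((P * 2 ^ x) ^ a * (P * 2 ^ y) ^ E) = P ^ (a + E) * 2 ^ (l + x * a + y * E) := by
  rw [mul_pow, mul_pow, ← pow_mul, ← pow_mul]
  ring

/-- the product as a power of two -/
theorem nat_main (v Z g q L K T E m l n : ℕ) (hZ : Z ≤ 2 ^ l) (hm : 2 * (2 * m + 1) ≤ 2 ^ l)
    (hK : K + 1 ≤ 2 ^ (2 * l)) (hq : q ≤ 2 ^ l) :
    q * ((2 * ((T + 1) * (v * Z * (m + 2) ^ q))) ^ (m + 1) *
      (((2 * m + 1) * T + 1) * (K + 1) ^ L *
        (2 * ((v * Z * (m + 2) ^ q) * Z * 2 ^ (g * Z) * (K + 1)))) ^ E) ≤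
    ((T + 1) * v) ^ (m + 1 + E) *
      2 ^ (((m + 2) * q * (m + 1 + E)) + g * Z * E +
        (l + (1 + l) * (m + 1) + l * (2 * L + 5) * E)) := by
  have hm2 : (m + 2) ^ q ≤ 2 ^ ((m + 2) * q) := by
    rw [pow_mul]
    exact Nat.pow_le_pow_left (Nat.lt_two_pow_self).le q
  have h1 : 2 * ((T + 1) * (v * Z * (m + 2) ^ q)) ≤ ((T + 1) * v) * 2 ^ (1 + l + (m + 2) * q) := by
    calc 2 * ((T + 1) * (v * Z * (m + 2) ^ q)) = ((T + 1) * v) * (2 * Z * (m + 2) ^ q) := by ring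
      _ ≤ ((T + 1) * v) * (2 * 2 ^ l * 2 ^ ((m + 2) * q)) := by gcongr
      _ = ((T + 1) * v) * 2 ^ (1 + l + (m + 2) * q) := by ring
  have h2 : ((2 * m + 1) * T + 1) * (K + 1) ^ L *
        (2 * ((v * Z * (m + 2) ^ q) * Z * 2 ^ (g * Z) * (K + 1))) ≤
      ((T + 1) * v) * 2 ^ (l * (2 * L + 5) + (m + 2) * q + g * Z) := by
    have e1 : (2 * m + 1) * T + 1 ≤ (2 * m + 1) * (T + 1) := by
      nlinarith
    calc ((2 * m + 1) * T + 1) * (K + 1) ^ L *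
          (2 * ((v * Z * (m + 2) ^ q) * Z * 2 ^ (g * Z) * (K + 1)))
        ≤ ((2 * m + 1) * (T + 1)) * (K + 1) ^ L *
          (2 * ((v * Z * (m + 2) ^ q) * Z * 2 ^ (g * Z) * (K + 1))) := by gcongr
      _ = ((T + 1) * v) * ((2 * (2 * m + 1)) * Z * Z * (K + 1) ^ (L + 1) * (m + 2) ^ q *
            2 ^ (g * Z)) := by ring
      _ ≤ ((T + 1) * v) * (2 ^ l * 2 ^ l * 2 ^ l * (2 ^ (2 * l)) ^ (L + 1) * 2 ^ ((m + 2) * q) *
            2 ^ (g * Z)) := by gcongr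
      _ = ((T + 1) * v) * 2 ^ (l * (2 * L + 5) + (m + 2) * q + g * Z) := by ring
  calc q * ((2 * ((T + 1) * (v * Z * (m + 2) ^ q))) ^ (m + 1) *
      (((2 * m + 1) * T + 1) * (K + 1) ^ L *
        (2 * ((v * Z * (m + 2) ^ q) * Z * 2 ^ (g * Z) * (K + 1)))) ^ E)
      ≤ 2 ^ l * ((((T + 1) * v) * 2 ^ (1 + l + (m + 2) * q)) ^ (m + 1) *
        (((T + 1) * v) * 2 ^ (l * (2 * L + 5) + (m + 2) * q + g * Z)) ^ E) := by gcongr
    _ = ((T + 1) * v) ^ (m + 1 + E) *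
      2 ^ (((m + 2) * q * (m + 1 + E)) + g * Z * E +
        (l + (1 + l) * (m + 1) + l * (2 * L + 5) * E)) := by
        rw [pow_help]
        congr 2
        ring

/-- the last step -/
theorem real_main (B n D q a P e : ℕ) (Y : ℝ) (hB : 1024 ≤ B) (hn : B ^ 20 ≤ n) (hD : D ≤ B)
    (hD0 : 1 ≤ D) (hq : n < (q + 1) * B ^ 10) (ha : 8 * B * a ≤ 3 * n) (hP : 1 ≤ P)
    (he : e ≤ B ^ 5) (hY : Y ≤ (P : ℝ) ^ e * 2 ^ a) :
    1 / (2 : ℝ) ^ q + Y * (2 : ℝ) ^ (-((n : ℝ) / (D : ℝ))) ≤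
      (P : ℝ) ^ B ^ 5 * (2 : ℝ) ^ (-((n : ℝ) / (B : ℝ) ^ 11)) := by
  have hBr : (1024 : ℝ) ≤ B := by exact_mod_cast hB
  have hB0 : (0 : ℝ) < B := by linarith
  have hnr : (B : ℝ) ^ 20 ≤ n := by exact_mod_cast hn
  have hqr : (n : ℝ) < ((q : ℝ) + 1) * (B : ℝ) ^ 10 := by exact_mod_cast hq
  have har : 8 * (B : ℝ) * a ≤ 3 * n := by exact_mod_cast ha
  have hDr : (D : ℝ) ≤ B := by exact_mod_cast hD
  have hD0r : (1 : ℝ) ≤ D := by exact_mod_cast hD0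
  have hPr : (1 : ℝ) ≤ P := by exact_mod_cast hP
  have hn0 : (0 : ℝ) < n := lt_of_lt_of_le (by positivity) hnr
  -- `w = n / B ^ 11`
  set w : ℝ := (n : ℝ) / (B : ℝ) ^ 11 with hw
  have hwn : (n : ℝ) = w * (B : ℝ) ^ 11 := by rw [hw]; field_simp
  have hw1 : (1 : ℝ) ≤ w := by
    rw [hw, le_div_iff₀ (by positivity), one_mul]
    calc (B : ℝ) ^ 11 ≤ (B : ℝ) ^ 20 := pow_le_pow_right₀ (by linarith) (by norm_num)
      _ ≤ n := hnr
  -- the first term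
  have hq1 : w + 1 ≤ q := by
    have h1 : w * B < q + 1 := by
      have h2 : w * (B : ℝ) * (B : ℝ) ^ 10 < ((q : ℝ) + 1) * (B : ℝ) ^ 10 := by
        have h3 : w * (B : ℝ) * (B : ℝ) ^ 10 = n := by
          rw [hwn]
          ring
        rw [h3]
        exact hqr
      exact lt_of_mul_lt_mul_right h2 (by positivity)
    nlinarith
  have t1 : 1 / (2 : ℝ) ^ q ≤ (2 : ℝ) ^ (-w) / 2 := by
    have e1 : 1 / (2 : ℝ) ^ q = (2 : ℝ) ^ (-(q : ℝ)) := by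
      rw [Real.rpow_neg (by norm_num), Real.rpow_natCast, one_div]
    have e2 : (2 : ℝ) ^ (-w) / 2 = (2 : ℝ) ^ (-w - 1) := by
      rw [Real.rpow_sub (by norm_num), Real.rpow_one]
    rw [e1, e2]
    exact Real.rpow_le_rpow_of_exponent_le (by norm_num) (by linarith)
  -- the second term
  have hPe : (P : ℝ) ^ e ≤ (P : ℝ) ^ B ^ 5 := pow_le_pow_right₀ hPr he
  have hexp : (a : ℝ) - (n : ℝ) / D ≤ -w - 1 := by
    have h1 : (n : ℝ) / B ≤ (n : ℝ) / D := by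
      apply div_le_div_of_nonneg_left hn0.le (by linarith) hDr
    have h2 : (a : ℝ) ≤ 3 / 8 * ((n : ℝ) / B) := by
      rw [← mul_div_assoc, le_div_iff₀ hB0]
      nlinarith
    have h3 : w * 8 ≤ (n : ℝ) / B := by
      rw [le_div_iff₀ hB0, hwn]
      have : (8 : ℝ) ≤ (B : ℝ) ^ 10 := by
        calc (8 : ℝ) ≤ B := by linarith
          _ = (B : ℝ) ^ 1 := (pow_one _).symm
          _ ≤ (B : ℝ) ^ 10 := pow_le_pow_right₀ (by linarith) (by norm_num)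
      calc w * 8 * B ≤ w * (B : ℝ) ^ 10 * B := by
            have := mul_le_mul_of_nonneg_left this (by linarith : (0 : ℝ) ≤ w)
            nlinarith
        _ = w * (B : ℝ) ^ 11 := by ring
    linarith
  have t2 : Y * (2 : ℝ) ^ (-((n : ℝ) / (D : ℝ))) ≤ (P : ℝ) ^ B ^ 5 * ((2 : ℝ) ^ (-w) / 2) := by
    calc Y * (2 : ℝ) ^ (-((n : ℝ) / (D : ℝ)))
        ≤ ((P : ℝ) ^ e * 2 ^ a) * (2 : ℝ) ^ (-((n : ℝ) / (D : ℝ))) := by gcongr
      _ = (P : ℝ) ^ e * (2 : ℝ) ^ ((a : ℝ) - (n : ℝ) / D) := by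
          rw [mul_assoc, ← Real.rpow_natCast 2 a, ← Real.rpow_add (by norm_num), sub_eq_add_neg]
      _ ≤ (P : ℝ) ^ B ^ 5 * (2 : ℝ) ^ (-w - 1) := by
          apply mul_le_mul hPe _ (by positivity) (by positivity)
          exact Real.rpow_le_rpow_of_exponent_le (by norm_num) hexp
      _ = (P : ℝ) ^ B ^ 5 * ((2 : ℝ) ^ (-w) / 2) := by
          rw [Real.rpow_sub (by norm_num), Real.rpow_one]
  have h1P : (1 : ℝ) ≤ (P : ℝ) ^ B ^ 5 := one_le_pow₀ hPr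
  have h0 : (0 : ℝ) < (2 : ℝ) ^ (-w) := by positivity
  have t1' : (2 : ℝ) ^ (-w) / 2 ≤ (P : ℝ) ^ B ^ 5 * ((2 : ℝ) ^ (-w) / 2) := by
    nlinarith
  calc 1 / (2 : ℝ) ^ q + Y * (2 : ℝ) ^ (-((n : ℝ) / (D : ℝ)))
      ≤ (P : ℝ) ^ B ^ 5 * ((2 : ℝ) ^ (-w) / 2) + (P : ℝ) ^ B ^ 5 * ((2 : ℝ) ^ (-w) / 2) := by
        linarith
    _ = (P : ℝ) ^ B ^ 5 * (2 : ℝ) ^ (-w) := by ring

end MLTP

open Pool.Agent.PPL (sg Auto sgP fP) in
theorem t_MLT (hU : S_MLU) : S_MLT := by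
  obtain ⟨A, hA⟩ := hU
  refine ⟨A, ?_⟩
  intro k hk B hB hkB hD n hn L V G _ _ R s T K g f gg hL hLB hg hgn hG hs hK hK8 hsn hf hgg
  have hB0 : 0 < B := by omega
  have hBn : B ≤ n := (Nat.le_self_pow (by norm_num) B).trans hn
  have hkn : k ^ (A * k) ≤ n := hD.trans hBn
  have hg0 : 0 < 16 * B ^ 2 * g := by positivity
  obtain ⟨l, hl, hll, hl1⟩ := MLTP.exl n (by omega)
  -- the numbers
  obtain ⟨Z, hZdef⟩ : ∃ Z, Z = n / (16 * B ^ 2 * g) := ⟨_, rfl⟩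
  obtain ⟨q, hqdef⟩ : ∃ q, q = n / B ^ 10 := ⟨_, rfl⟩
  obtain ⟨m, hmdef⟩ : ∃ m, m = 8 * B ^ 4 := ⟨_, rfl⟩
  have hZ1 : 1 ≤ Z := by
    rw [hZdef]
    exact (Nat.one_le_div_iff hg0).mpr hgn
  have hZle : 16 * B ^ 2 * g * Z ≤ n := by
    rw [hZdef]
    exact Nat.mul_div_le n _
  have hZlt : n < 16 * B ^ 2 * g * (Z + 1) := by
    rw [hZdef]
    have := Nat.lt_mul_div_succ n hg0
    simpa using this
  have hqle : q * B ^ 10 ≤ n := by
    rw [hqdef]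
    exact Nat.div_mul_le_self n _
  have hqlt : n < (q + 1) * B ^ 10 := by
    rw [hqdef]
    have := Nat.lt_mul_div_succ n (show 0 < B ^ 10 by positivity)
    calc n < B ^ 10 * (n / B ^ 10 + 1) := by simpa using this
      _ = (n / B ^ 10 + 1) * B ^ 10 := by ring
  have hE : k ^ A + 1 ≤ 2 * B := by
    have : k ^ A ≤ k ^ (A * k) := Nat.pow_le_pow_right (by omega) (Nat.le_mul_of_pos_right _ (by omega))
    omega
  have h8K : 8 * K ≤ B ^ 2 * n := by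
    calc 8 * K ≤ k * (n * L) := hK8
      _ ≤ B * (n * B) := by gcongr
      _ = B ^ 2 * n := by ring
  have hmZ : 2 * K ≤ (m + 1) * (g * Z) := by
    have h1 : n ≤ 32 * B ^ 2 * g * Z := by
      have : 16 * B ^ 2 * g * (Z + 1) ≤ 32 * B ^ 2 * g * Z := by
        calc 16 * B ^ 2 * g * (Z + 1) ≤ 16 * B ^ 2 * g * (2 * Z) := by gcongr; omega
          _ = 32 * B ^ 2 * g * Z := by ring
      omega
    have h2 : 4 * (2 * K) ≤ 4 * ((m + 1) * (g * Z)) := by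
      calc 4 * (2 * K) = 8 * K := by ring
        _ ≤ B ^ 2 * n := h8K
        _ ≤ B ^ 2 * (32 * B ^ 2 * g * Z) := by gcongr
        _ = 4 * (8 * B ^ 4 * (g * Z)) := by ring
        _ ≤ 4 * ((m + 1) * (g * Z)) := by
            rw [hmdef]
            gcongr
            omega
    omega
  have key := hA k hk n hkn L V G R s T K g Z m q f gg hL hZ1 hg hG hs hK hK8 hmZ hsn hf hgg _ rfl
  refine key.trans ?_
  -- bounds
  have hZl : Z ≤ 2 ^ l := by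
    refine le_trans ?_ hl
    rw [hZdef]
    exact Nat.div_le_self n _
  have hql : q ≤ 2 ^ l := by
    refine le_trans ?_ hl
    rw [hqdef]
    exact Nat.div_le_self n _
  have hB4 : B ^ 2 ≤ B ^ 20 := Nat.pow_le_pow_right hB0 (by norm_num)
  have hml : 2 * (2 * m + 1) ≤ 2 ^ l := by
    refine le_trans ?_ hl
    refine le_trans ?_ hn
    have h1 : B ^ 5 ≤ B ^ 20 := Nat.pow_le_pow_right hB0 (by norm_num)
    have h2 : B ^ 5 = B * B ^ 4 := by ring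
    have h3 : 1024 * B ^ 4 ≤ B * B ^ 4 := Nat.mul_le_mul_right _ hB
    have h4 : 0 < B ^ 4 := by positivity
    omega
  have hKl : K + 1 ≤ 2 ^ (2 * l) := by
    have h1 : K + 1 ≤ n * n := by
      have h2 : B ^ 2 * n ≤ n * n := Nat.mul_le_mul_right _ (hB4.trans hn)
      have h3 : 0 < n * n := by
        have : 0 < n := by omega
        positivity
      omega
    calc K + 1 ≤ n * n := h1
      _ ≤ 2 ^ l * 2 ^ l := Nat.mul_le_mul hl hl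
      _ = 2 ^ (2 * l) := by ring
  have hnat := MLTP.nat_main (Fintype.card V) Z g q L K T (k ^ A + 1) m l n hZl hml hKl hql
  have ha1 := MLTP.nA1 B n (k ^ A + 1) q hB hE hqle
  have ha2 := MLTP.nA2 B n (k ^ A + 1) g Z hE hZle
  have ha3 := MLTP.nA3 B n (k ^ A + 1) L l hB hE hLB hn hll hl1
  rw [← hmdef] at ha1 ha3
  obtain ⟨a, hadef⟩ : ∃ a, a = ((m + 2) * q * (m + 1 + (k ^ A + 1))) + g * Z * (k ^ A + 1) +
        (l + (1 + l) * (m + 1) + l * (2 * L + 5) * (k ^ A + 1)) := ⟨_, rfl⟩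
  rw [← hadef] at hnat
  have ha : 8 * B * a ≤ 3 * n := by
    rw [hadef, Nat.mul_add, Nat.mul_add]
    omega
  have hP : 1 ≤ (T + 1) * Fintype.card V := by
    have : 0 < Fintype.card V := Fintype.card_pos_iff.mpr ⟨R.start⟩
    have : 0 < (T + 1) * Fintype.card V := by positivity
    omega
  have he : m + 1 + (k ^ A + 1) ≤ B ^ 5 := by
    have h2 : B ^ 5 = B * B ^ 4 := by ring
    have h3 : 1024 * B ^ 4 ≤ B * B ^ 4 := Nat.mul_le_mul_right _ hB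
    have h4 : B ≤ B ^ 4 := Nat.le_self_pow (by norm_num) B
    omega
  have hD0 : 1 ≤ k ^ (A * k) := Nat.one_le_pow _ _ (by omega)
  generalize 2 * ((T + 1) * (Fintype.card V * Z * (m + 2) ^ q)) = X1 at hnat ⊢
  generalize ((2 * m + 1) * T + 1) * (K + 1) ^ L *
    (2 * (Fintype.card V * Z * (m + 2) ^ q * Z * 2 ^ (g * Z) * (K + 1))) = X2 at hnat ⊢
  have hY : (q : ℝ) * ((X1 : ℝ) ^ (m + 1) * (X2 : ℝ) ^ (k ^ A + 1)) ≤
      (((T + 1) * Fintype.card V : ℕ) : ℝ) ^ (m + 1 + (k ^ A + 1)) * 2 ^ a := by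
    exact_mod_cast hnat
  have hfin := MLTP.real_main B n (k ^ (A * k)) q a ((T + 1) * Fintype.card V)
    (m + 1 + (k ^ A + 1)) _ hB hn hD hD0 hqlt ha hP he hY
  rw [Nat.cast_pow] at hfin
  calc 2 ^ (L * n) * (1 / 2 ^ q + (q : ℝ) * ((X1 : ℝ) ^ (m + 1) * (X2 : ℝ) ^ (k ^ A + 1) *
        (2 : ℝ) ^ (-((n : ℝ) / (k : ℝ) ^ (A * k)))))
      = 2 ^ (L * n) * (1 / 2 ^ q + (q : ℝ) * ((X1 : ℝ) ^ (m + 1) * (X2 : ℝ) ^ (k ^ A + 1)) *
        (2 : ℝ) ^ (-((n : ℝ) / (k : ℝ) ^ (A * k)))) := by ring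
    _ ≤ 2 ^ (L * n) * ((((T + 1) * Fintype.card V : ℕ) : ℝ) ^ B ^ 5 *
        (2 : ℝ) ^ (-((n : ℝ) / (B : ℝ) ^ 11))) := by gcongr
    _ = (((T + 1) * Fintype.card V : ℕ) : ℝ) ^ B ^ 5 * 2 ^ (L * n) *
        (2 : ℝ) ^ (-((n : ℝ) / (B : ℝ) ^ 11)) := by ring

end Pool.Agent.PPT
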