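import Pool.Agent.PPT.St1

/-!
# Project PPT: all inputs (helper66)
-/

set_option autoImplicit false

open Finset
open scoped Classical

namespace Pool.Agent.PPT

open Pool.Agent.PPL (sg Auto sgP fP)
open Pool.Agent.TKN.ONE (size Bas Lay)
open Pool.Agent.PPS (SS cube HardC)

namespace MLUx

lemma abs_sg (b : Bool) : |sg b| = 1 := by
  unfold sg
  cases b <;> simp

lemma abs_mv (o : Option Bool) : |mv o| ≤ 1 := by
  rcases o with _ | _ | _ <;> simp [mv]

/-- the decomposition of a sum by the first good index -/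
lemma split {X : Type} [Fintype X] (q m : ℕ) (cr : Fin q → X → ℕ) (F : X → ℝ) :
    ∑ x, F x = ∑ x ∈ univ.filter (fun x => ∀ j, m < cr j x), F x +
      ∑ j, ∑ x ∈ univ.filter (fun x => cr j x ≤ m), if ∀ i < j, m < cr i x then F x else 0 := by
  have h1 : ∀ x, F x = (if ∀ j, m < cr j x then F x else 0) +
      ∑ j, if cr j x ≤ m then (if ∀ i < j, m < cr i x then F x else 0) else 0 := by
    intro x
    by_cases hx : ∀ j, m < cr j x
    · rw [if_pos hx, Finset.sum_eq_zero, add_zero]
      intro j _
      rw [if_neg (not_le.2 (hx j))]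
    · rw [if_neg hx, zero_add]
      push Not at hx
      obtain ⟨j0, hj0⟩ := hx
      let S : Finset (Fin q) := univ.filter fun j => cr j x ≤ m
      have hS : S.Nonempty := ⟨j0, by simp [S, hj0]⟩
      let j := S.min' hS
      have hj : cr j x ≤ m := by
        have := S.min'_mem hS
        simp only [S, mem_filter, mem_univ, true_and] at this
        exact this
      have hlt : ∀ i < j, m < cr i x := by
        intro i hi
        by_contra hc
        rw [not_lt] at hc
        have := S.min'_le i (by simp [S, hc])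
        exact absurd hi (not_lt.2 this)
      rw [Finset.sum_eq_single j]
      · rw [if_pos hj, if_pos hlt]
      · intro i _ hij
        by_cases hi : cr i x ≤ m
        · rw [if_pos hi, if_neg]
          intro hall
          rcases lt_or_gt_of_ne hij with hl | hl
          · exact absurd (hlt i hl) (not_lt.2 hi)
          · exact absurd (hall j hl) (not_lt.2 hj)
        · rw [if_neg hi]
      · intro h
        exact absurd (mem_univ j) h
  rw [Finset.sum_congr rfl fun x _ => h1 x, Finset.sum_add_distrib, Finset.sum_comm]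
  congr 1
  · rw [Finset.sum_filter]
  · refine Finset.sum_congr rfl fun j _ => ?_
    rw [Finset.sum_filter]

end MLUx

/-- (MLU) all inputs -/
theorem t_MLU (hR : S_ROO) (hA : S_AUG) (hV : S_AVS) : S_MLU := by
  obtain ⟨A, hR⟩ := hR
  refine ⟨A, fun k hk n hn L V G _ _ R s T K g Z m q f gg hL hZ hg hG hs hK h8 h2 hsn hau hgg U hU => ?_⟩
  have hR := hR k hk n hn
  let X := Fin L × Fin n → Bool
  let h : X → ℕ → ℤ := fun x t => (R.conf x t).h
  have hstep : ∀ x t, |h x (t + 1) - h x t| ≤ 1 := by
    intro x t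
    show |(R.conf x t).h + mv _ - (R.conf x t).h| ≤ 1
    rw [add_sub_cancel_left]
    exact MLUx.abs_mv _
  have hmov : ∀ x, 2 * moves (h x) T ≤ (m + 1) * Z := by
    intro x
    have h3 : g * moves (h x) T ≤ K := (Nat.le_add_left _ _).trans (hK x)
    have h4 : g * (2 * moves (h x) T) ≤ g * ((m + 1) * Z) := by
      calc g * (2 * moves (h x) T) = 2 * (g * moves (h x) T) := by ring
        _ ≤ 2 * K := Nat.mul_le_mul_left 2 h3
        _ ≤ (m + 1) * (g * Z) := h2
        _ = g * ((m + 1) * Z) := by ring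
    exact Nat.le_of_mul_le_mul_left h4 hg
  obtain ⟨σ, hσ, hbad⟩ := hV X h Z m T q hZ hstep hmov
  obtain ⟨V', _, R', π, κ, hcard, hrd, hcf⟩ := hA (Fin L × Fin n) V G R Z m q σ hZ
  have hbits : ∀ x t, R'.bits x t = R.bits x t := by
    intro x t
    obtain ⟨e1, e2, e3, -⟩ := hcf x t
    unfold TM.bits
    rw [hrd, e1, e2, e3]
  have hheads : ∀ x, (fun t => (R'.conf x t).h) = h x := by
    intro x
    funext t
    exact (hcf x t).2.1
  have hKb : ∀ x, ∑ t ∈ range T, R'.bits x t ≤ K := by
    intro x
    rw [Finset.sum_congr rfl fun t _ => hbits x t]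
    exact (Nat.le_add_right _ _).trans (hK x)
  have hs' : ∀ t v a, (R'.rd t v a).card ≤ s := by
    intro t v a
    rw [hrd]
    exact hs _ _ _
  have hκ : ∀ x j, κ (R'.conf x T).v j = m + 1 ↔ m < crs Z (σ j) (h x) T := by
    intro x j
    rw [(hcf x T).2.2.2 j]
    constructor
    · intro h5
      have := min_le_left (crs Z (σ j) (fun t => (R.conf x t).h) T) (m + 1)
      rw [h5] at this
      exact this
    · intro h5
      exact min_eq_right h5
  set F : X → ℝ := fun x => gg (R.conf x T).v * ∏ l, sg (f fun j => x (l, j)) with hF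
  have hF1 : ∀ x, |F x| ≤ 1 := by
    intro x
    rw [hF]
    show |gg _ * ∏ l, sg (f fun j => x (l, j))| ≤ 1
    rw [abs_mul, Finset.abs_prod, Finset.prod_eq_one fun l _ => MLUx.abs_sg _, mul_one]
    exact hgg _
  set bd : ℝ := ((2 * ((T + 1) * U) : ℕ) : ℝ) ^ (m + 1) *
      ((((2 * m + 1) * T + 1) * (K + 1) ^ L * (2 * (U * Z * 2 ^ (g * Z) * (K + 1))) : ℕ) : ℝ) ^
        (k ^ A + 1) * (2 : ℝ) ^ (-((n : ℝ) / k ^ (A * k))) with hbd
  have hcX : Fintype.card X = 2 ^ (L * n) := by
    show Fintype.card (Fin L × Fin n → Bool) = _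
    simp
  have hb1 : |∑ x ∈ univ.filter (fun x : X => ∀ j, m < crs Z (σ j) (h x) T), F x| ≤
      2 ^ (L * n) * (1 / 2 ^ q) := by
    have h6 : |∑ x ∈ univ.filter (fun x : X => ∀ j, m < crs Z (σ j) (h x) T), F x| ≤
        ((univ.filter (fun x : X => ∀ j, m < crs Z (σ j) (h x) T)).card : ℝ) := by
      refine (Finset.abs_sum_le_sum_abs _ _).trans ?_
      refine (Finset.sum_le_sum fun x _ => hF1 x).trans ?_
      simp
    refine h6.trans ?_
    rw [mul_one_div, le_div_iff₀ (by positivity)]
    have h7 : ((univ.filter (fun x : X => ∀ j, m < crs Z (σ j) (h x) T)).card : ℝ) * 2 ^ q =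
        ((2 ^ q * (univ.filter fun x : X => ∀ j, m < crs Z (σ j) (h x) T).card : ℕ) : ℝ) := by
      push_cast
      ring
    rw [h7]
    have h8 : ((Fintype.card X : ℕ) : ℝ) = 2 ^ (L * n) := by
      rw [hcX]
      push_cast
      rfl
    rw [← h8]
    exact_mod_cast hbad
  have hb2 : ∀ j : Fin q, |∑ x ∈ univ.filter (fun x : X => crs Z (σ j) (h x) T ≤ m),
      if ∀ i < j, m < crs Z (σ i) (h x) T then F x else 0| ≤ 2 ^ (L * n) * bd := by
    intro j
    have h9 := hR L V' G R' s T K g Z (σ j) m f
      (fun v => if ∀ i < j, κ v i = m + 1 then gg (π v) else 0) hL hZ (hσ j) hG hs' hKb h8 hsn hau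
      (fun v => by
        split_ifs
        · exact hgg _
        · rw [abs_zero]
          exact zero_le_one)
    have h10 : ∑ x ∈ univ.filter (fun x : X => crs Z (σ j) (fun t => (R'.conf x t).h) T ≤ m),
        (if ∀ i < j, κ (R'.conf x T).v i = m + 1 then gg (π (R'.conf x T).v) else 0) *
          ∏ l, sg (f fun j => x (l, j)) =
        ∑ x ∈ univ.filter (fun x : X => crs Z (σ j) (h x) T ≤ m),
          if ∀ i < j, m < crs Z (σ i) (h x) T then F x else 0 := by
      refine Finset.sum_congr ?_ fun x _ => ?_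
      · ext x
        simp only [mem_filter, mem_univ, true_and]
        rw [hheads x]
      · have h11 : (∀ i < j, κ (R'.conf x T).v i = m + 1) ↔ ∀ i < j, m < crs Z (σ i) (h x) T :=
          forall_congr' fun i => imp_congr_right fun _ => hκ x i
        by_cases h12 : ∀ i < j, m < crs Z (σ i) (h x) T
        · rw [if_pos (h11.2 h12), if_pos h12, (hcf x T).1]
        · rw [if_neg (fun hc => h12 (h11.1 hc)), if_neg h12, zero_mul]
    rw [h10] at h9
    refine h9.trans (le_of_eq ?_)
    rw [hbd, hcard, ← hU]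
    ring
  have hsum := MLUx.split q m (fun j x => crs Z (σ j) (h x) T) F
  show |∑ x, F x| ≤ 2 ^ (L * n) * (1 / 2 ^ q + q * bd)
  rw [hsum]
  refine (abs_add_le _ _).trans ?_
  rw [mul_add]
  refine add_le_add hb1 ?_
  refine (Finset.abs_sum_le_sum_abs _ _).trans ?_
  refine (Finset.sum_le_sum fun j _ => hb2 j).trans (le_of_eq ?_)
  rw [Finset.sum_const, card_univ, Fintype.card_fin, nsmul_eq_mul]
  ring

end Pool.Agent.PPT
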