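import Pool.Agent.PPT.St1
import Pool.Agent.PPS.TRW

/-!
# Project PPT, module ROO: the inputs with at most `m` crossings (helper39)
-/

set_option autoImplicit false

open Finset
open scoped Classical

namespace Pool.Agent.PPT

open Pool.Agent.PPL (sg Auto sgP fP)
open Pool.Agent.PPS (SS)

namespace ROOx

variable {T : ℕ} {V : Type}

/-- the lists of events -/
abbrev Ix (T : ℕ) (V : Type) (m : ℕ) : Type :=
  {τ : Fin T → Option (Bool × V) // (univ.filter fun u => τ u ≠ none).card ≤ m}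

/-- the events as a function of all times -/
def rdt (τ : Fin T → Option (Bool × V)) (u : ℕ) : Option (Bool × V) :=
  if h : u < T then τ ⟨u, h⟩ else none

lemma rdt_val (τ : Fin T → Option (Bool × V)) (u : Fin T) : rdt τ u = τ u := by
  unfold rdt
  rw [dif_pos u.isLt]

lemma card_rng (T : ℕ) (p : ℕ → Prop) [DecidablePred p] (q : Fin T → Prop) [DecidablePred q]
    (h : ∀ u : Fin T, p u ↔ q u) :
    ((range T).filter p).card = (univ.filter q).card := by
  rw [card_filter, card_filter, Finset.sum_range]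
  refine sum_congr rfl fun u _ => ?_
  by_cases h1 : p u
  · rw [if_pos h1, if_pos ((h u).1 h1)]
  · rw [if_neg h1, if_neg (fun h2 => h1 ((h u).2 h2))]

lemma card_Ix [Fintype V] (m : ℕ) : Fintype.card (Ix T V m) ≤
    (T * (2 * Fintype.card V) + 1) ^ m := by
  have h1 : Fintype.card (Ix T V m) ≤ Fintype.card (Fin m → Option (Fin T × (Bool × V))) := by
    apply Fintype.card_le_of_injective (fun τ => (PPS.TRWx.enum τ.1 τ.2).choose)
    intro τ τ' h
    have h' : (PPS.TRWx.enum τ.1 τ.2).choose = (PPS.TRWx.enum τ'.1 τ'.2).choose := h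
    have s1 := (PPS.TRWx.enum τ.1 τ.2).choose_spec
    have s2 := (PPS.TRWx.enum τ'.1 τ'.2).choose_spec
    apply Subtype.ext
    have key : ∀ (u : Fin T) (p : Bool × V), τ.1 u = some p ↔ τ'.1 u = some p := by
      intro u p
      have e1 := s1 (u, p)
      have e2 := s2 (u, p)
      rw [h'] at e1
      exact e1.symm.trans e2
    funext u
    rcases h1 : τ.1 u with _ | p
    · rcases h2 : τ'.1 u with _ | p
      · rfl
      · rw [(key u p).2 h2] at h1
        cases h1
    · exact ((key u p).1 h1).symm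
  refine h1.trans ?_
  rw [Fintype.card_fun, Fintype.card_option, Fintype.card_prod, Fintype.card_prod,
    Fintype.card_fin, Fintype.card_fin, Fintype.card_bool]

variable {P G : Type}

/-- an event is not `none` iff the zone changes -/
lemma evt_ne (R : TM P V G) (Z s : ℕ) (x : P → Bool) (t : ℕ) :
    R.evt Z s x t ≠ none ↔ zn Z s (R.conf x (t + 1)).h ≠ zn Z s (R.conf x t).h := by
  unfold TM.evt
  split_ifs with h
  · simp [h]
  · simp [h]

lemma crs_eq (R : TM P V G) (Z s : ℕ) (x : P → Bool) :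
    crs Z s (fun t => (R.conf x t).h) T = (univ.filter fun u : Fin T => R.evt Z s x u ≠ none).card := by
  unfold crs
  exact card_rng T _ _ fun u => (evt_ne R Z s x u).symm

/-- the sum over the inputs with at most `m` crossings, by events and final state -/
lemma split [Fintype P] [DecidableEq P] [Fintype V] (R : TM P V G) (Z s m : ℕ) (F : (P → Bool) → ℝ) :
    ∑ x ∈ univ.filter (fun x : P → Bool => crs Z s (fun t => (R.conf x t).h) T ≤ m), F x =
      ∑ y : Ix T V m × V, ∑ x : P → Bool,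
        if (∀ t < T, R.evt Z s x t = rdt y.1.1 t) ∧ (R.conf x T).v = y.2 then F x else 0 := by
  rw [sum_comm, sum_filter]
  refine sum_congr rfl fun x _ => ?_
  by_cases hx : crs Z s (fun t => (R.conf x t).h) T ≤ m
  · rw [if_pos hx]
    symm
    have h1 : (univ.filter fun u : Fin T => R.evt Z s x u ≠ none).card ≤ m := by
      rw [← crs_eq]; exact hx
    rw [sum_eq_single ((⟨fun u : Fin T => R.evt Z s x u, h1⟩ : Ix T V m), (R.conf x T).v)]
    · rw [if_pos]
      refine ⟨fun t ht => ?_, rfl⟩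
      exact (rdt_val (fun u : Fin T => R.evt Z s x u) ⟨t, ht⟩).symm
    · rintro ⟨⟨τ, hτ⟩, q⟩ - hne
      rw [if_neg]
      rintro ⟨h2, h3⟩
      apply hne
      refine Prod.ext (Subtype.ext ?_) h3.symm
      funext u
      have h4 := h2 u u.isLt
      rw [rdt_val] at h4
      exact h4.symm
    · intro h
      exact absurd (mem_univ _) h
  · rw [if_neg hx]
    symm
    refine sum_eq_zero fun y _ => ?_
    rw [if_neg]
    rintro ⟨h2, -⟩
    apply hx
    rw [crs_eq]
    refine le_trans (card_le_card ?_) y.1.2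
    intro u hu
    rw [mem_filter] at hu ⊢
    refine ⟨hu.1, ?_⟩
    rw [← rdt_val y.1.1 u, ← h2 u u.isLt]
    exact hu.2

end ROOx

open ROOx in
/-- **ROO**: the inputs with at most `m` crossings. -/
theorem t_ROO (hZ : S_ZON) (hM : PPS.S_MLS) : S_ROO := by
  obtain ⟨A, hA⟩ := hM
  refine ⟨A, fun k hk n hn L V G _ _ R s T K g Z sh m f gg hL hZ1 hsh hG hs hK h8 hsn hf hgg => ?_⟩
  obtain ⟨B, hB⟩ : ∃ B : ℝ, B = ((((2 * m + 1) * T + 1) * (K + 1) ^ L *
        (2 * (Fintype.card V * Z * 2 ^ (g * Z) * (K + 1))) : ℕ) : ℝ) ^ (k ^ A + 1) *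
      2 ^ (L * n) * (2 : ℝ) ^ (-((n : ℝ) / k ^ (A * k))) := ⟨_, rfl⟩
  have hB0 : 0 ≤ B := by rw [hB]; positivity
  obtain ⟨F, hF⟩ : ∃ F : (Fin L × Fin n → Bool) → ℝ, F = fun x => ∏ l, sg (f fun j => x (l, j)) :=
    ⟨_, rfl⟩
  have key : ∀ y : Ix T V m × V, |∑ x : Fin L × Fin n → Bool,
      if (∀ t < T, R.evt Z sh x t = rdt y.1.1 t) ∧ (R.conf x T).v = y.2 then
        gg (R.conf x T).v * F x else 0| ≤ B := by
    rintro ⟨⟨τ, hτ⟩, q⟩
    have hc : ((range T).filter fun t => rdt τ t ≠ none).card ≤ m := by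
      refine le_trans (le_of_eq (card_rng T _ _ fun u => ?_)) hτ
      rw [rdt_val]
    obtain ⟨W, _, R', ok, hW, hs', hK', hok⟩ := hZ (Fin L × Fin n) V G R Z sh m T s K g q (rdt τ)
      hZ1 hsh hc hs hG
    have h1 := hA k hk n hn L W Unit R' s ((2 * m + 1) * T) K f (fun w => if ok w then 1 else 0)
      hL hs' hK' h8 hsn hf (fun w => by split_ifs <;> simp)
    have h2 : (∑ x : Fin L × Fin n → Bool,
        if (∀ t < T, R.evt Z sh x t = rdt τ t) ∧ (R.conf x T).v = q then
          gg (R.conf x T).v * F x else 0) =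
        gg q * ∑ x : Fin L × Fin n → Bool,
          (if ok (R'.conf x ((2 * m + 1) * T)).1 then (1 : ℝ) else 0) *
            ∏ l, sg (f fun j => x (l, j)) := by
      rw [mul_sum]
      refine sum_congr rfl fun x _ => ?_
      have h3 := hok x (hK x)
      by_cases h4 : (∀ t < T, R.evt Z sh x t = rdt τ t) ∧ (R.conf x T).v = q
      · rw [if_pos h4, if_pos (h3.2 h4), h4.2, hF, one_mul]
      · rw [if_neg h4, if_neg (fun h5 => h4 (h3.1 h5)), zero_mul, mul_zero]
    show |∑ x : Fin L × Fin n → Bool,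
        if (∀ t < T, R.evt Z sh x t = rdt τ t) ∧ (R.conf x T).v = q then
          gg (R.conf x T).v * F x else 0| ≤ B
    rw [h2, abs_mul]
    have h5 : (((((2 * m + 1) * T + 1) * (K + 1) ^ L * Fintype.card W : ℕ) : ℝ)) ^ (k ^ A + 1) *
        2 ^ (L * n) * (2 : ℝ) ^ (-((n : ℝ) / k ^ (A * k))) ≤ B := by
      rw [hB]
      have h6 : ((2 * m + 1) * T + 1) * (K + 1) ^ L * Fintype.card W ≤
          ((2 * m + 1) * T + 1) * (K + 1) ^ L *
            (2 * (Fintype.card V * Z * 2 ^ (g * Z) * (K + 1))) := Nat.mul_le_mul_left _ hW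
      gcongr
    calc |gg q| * _ ≤ 1 * _ := mul_le_mul_of_nonneg_right (hgg q) (abs_nonneg _)
      _ ≤ B := by
        rw [one_mul]
        exact h1.trans h5
  have e1 := split (T := T) R Z sh m (fun x => gg (R.conf x T).v * F x)
  have e0 : ∀ x : Fin L × Fin n → Bool, (∏ l, sg (f fun j => x (l, j))) = F x :=
    fun x => by rw [hF]
  simp only [e0]
  have hV : 1 ≤ Fintype.card V := Fintype.card_pos_iff.2 ⟨R.start⟩
  have hN : Fintype.card (Ix T V m × V) ≤ (2 * ((T + 1) * Fintype.card V)) ^ (m + 1) := by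
    rw [Fintype.card_prod, pow_succ]
    refine Nat.mul_le_mul (le_trans (card_Ix m) (Nat.pow_le_pow_left ?_ m)) ?_
    · nlinarith
    · nlinarith
  calc _ = |∑ y : Ix T V m × V, ∑ x : Fin L × Fin n → Bool,
        if (∀ t < T, R.evt Z sh x t = rdt y.1.1 t) ∧ (R.conf x T).v = y.2 then
          gg (R.conf x T).v * F x else 0| := by rw [e1]
    _ ≤ ∑ y : Ix T V m × V, |∑ x : Fin L × Fin n → Bool,
        if (∀ t < T, R.evt Z sh x t = rdt y.1.1 t) ∧ (R.conf x T).v = y.2 then
          gg (R.conf x T).v * F x else 0| := abs_sum_le_sum_abs _ _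
    _ ≤ ∑ _y : Ix T V m × V, B := sum_le_sum fun y _ => key y
    _ = (Fintype.card (Ix T V m × V) : ℝ) * B := by
      rw [sum_const, card_univ, nsmul_eq_mul]
    _ ≤ (((2 * ((T + 1) * Fintype.card V)) ^ (m + 1) : ℕ) : ℝ) * B :=
      mul_le_mul_of_nonneg_right (by exact_mod_cast hN) hB0
    _ = _ := by
      rw [hB]
      push_cast
      ring

end Pool.Agent.PPT
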