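import Pool.Agent.PPT.St1

/-!
# Project PPT, module ZON: the plain machine which checks the crossings zone by zone
-/

set_option autoImplicit false

open Finset
open scoped Classical

namespace Pool.Agent.PPT

open Pool.Agent.PPS (SS Op)

namespace ZONx

theorem mv_cases (o : Option Bool) : mv o = 0 ∨ mv o = 1 ∨ mv o = -1 := by
  rcases o with _ | _ | _ <;> simp [mv]

/-! ## Zones of integers -/

theorem zn_iff {Z s : ℕ} (hZ : 1 ≤ Z) (h ρ : ℤ) :
    zn Z s h = ρ ↔ ρ * Z ≤ h + s ∧ h + s < ρ * Z + Z := by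
  have hZ' : (0 : ℤ) < Z := by exact_mod_cast hZ
  unfold zn
  rw [Int.ediv_eq_iff_of_pos hZ']

/-- the cell number `i` of zone `ρ` -/
def cell (Z s : ℕ) (ρ i : ℤ) : ℤ := ρ * Z - s + i

theorem zn_cell {Z s : ℕ} (hZ : 1 ≤ Z) (ρ : ℤ) (i : Fin Z) :
    zn Z s (cell Z s ρ ((i : ℕ) : ℤ)) = ρ := by
  rw [zn_iff hZ]
  unfold cell
  have := i.2
  constructor <;> omega

theorem cell_pos {Z s : ℕ} {ρ h p : ℤ} (hp : p = h + s - ρ * Z) : cell Z s ρ p = h := by
  unfold cell
  omega

theorem zn_zero {Z s : ℕ} (hZ : 1 ≤ Z) (hs : s < Z) : zn Z s 0 = 0 := by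
  rw [zn_iff hZ]
  constructor <;> omega

/-- a step of a path which leads into another zone -/
theorem zn_step {Z s : ℕ} (hZ : 1 ≤ Z) {h h' : ℤ} (hh : h' = h ∨ h' = h + 1 ∨ h' = h - 1)
    (hne : zn Z s h' ≠ zn Z s h) :
    (h < h' → h' + s = zn Z s h' * Z ∧ zn Z s h' = zn Z s h + 1) ∧
    (¬ h < h' → h' + s = zn Z s h' * Z + Z - 1 ∧ zn Z s h' = zn Z s h - 1) := by
  have hZ' : (0 : ℤ) < Z := by exact_mod_cast hZ
  obtain ⟨a1, a2⟩ := (zn_iff (s := s) hZ h _).1 rfl
  obtain ⟨b1, b2⟩ := (zn_iff (s := s) hZ h' _).1 rfl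
  have hne1 : ¬ (zn Z s h * Z ≤ h' + s ∧ h' + s < zn Z s h * Z + Z) := fun hc =>
    hne ((zn_iff hZ h' _).2 hc)
  generalize zn Z s h = a at *
  generalize zn Z s h' = b at *
  constructor
  · intro hlt
    have h1 : h' = h + 1 := by
      rcases hh with h1 | h1 | h1 <;> omega
    subst h1
    have h2 : h + 1 + s = a * Z + Z := by
      by_contra hc
      exact hne1 ⟨by omega, by omega⟩
    have h3 : b = a + 1 := by
      have e1 : (b : ℤ) * Z ≤ (a + 1) * Z := by linarith
      have e2 : (a + 1) * Z < (b + 1) * Z := by linarith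
      have e3 := le_of_mul_le_mul_right e1 hZ'
      have e4 := lt_of_mul_lt_mul_right e2 hZ'.le
      omega
    subst h3
    refine ⟨by linarith, rfl⟩
  · intro hlt
    have h1 : h' = h - 1 := by
      rcases hh with h1 | h1 | h1
      · subst h1
        exact absurd ⟨a1, a2⟩ hne1
      · omega
      · exact h1
    subst h1
    have h2 : h - 1 + s = a * Z - 1 := by
      by_contra hc
      exact hne1 ⟨by omega, by omega⟩
    have h3 : b = a - 1 := by
      have e1 : (b : ℤ) * Z < a * Z := by linarith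
      have e2 : (a : ℤ) * Z ≤ (b + 1) * Z := by linarith
      have e3 := lt_of_mul_lt_mul_right e1 hZ'.le
      have e4 := le_of_mul_le_mul_right e2 hZ'
      omega
    subst h3
    refine ⟨by linarith, rfl⟩

/-- the states of the machine: state, position, contents, number of bits, flag -/
abbrev Wt (V G : Type) (Z K : ℕ) : Type := V × Fin Z × (Fin Z → G) × Fin (K + 1) × Bool

/-- the head stays in the zone -/
def ins {V G : Type} (Z : ℕ) (p : Fin Z) (o : V × G × Option Bool) : Prop :=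
  0 ≤ ((p : ℕ) : ℤ) + mv o.2.2 ∧ ((p : ℕ) : ℤ) + mv o.2.2 < Z

/-- the event at position `p` -/
noncomputable def me {V G : Type} (Z : ℕ) (p : Fin Z) (o : V × G × Option Bool) :
    Option (Bool × V) :=
  if ins Z p o then none else some (decide (0 < mv o.2.2), o.1)

/-- the new position -/
noncomputable def nP {V G : Type} (Z : ℕ) (p : Fin Z) (o : V × G × Option Bool) : Fin Z :=
  if h : ins Z p o then ⟨(((p : ℕ) : ℤ) + mv o.2.2).toNat, by
    have := h.1
    have := h.2
    omega⟩ else p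

section

variable {P V G : Type} (R : TM P V G) (Z sh T K : ℕ) (hZ : 1 ≤ Z) (hsh : sh < Z) (q : V)
  (ev : ℕ → Option (Bool × V))

/-- the state after the entry -/
def eV (t : ℕ) (w : Wt V G Z K) : V :=
  if t = 0 then R.start else ((ev (t - 1)).map Prod.snd).getD w.1

/-- the position after the entry -/
def eP (t : ℕ) (w : Wt V G Z K) : Fin Z :=
  if t = 0 then ⟨sh, hsh⟩ else
    ((ev (t - 1)).map fun p => if p.1 then (⟨0, hZ⟩ : Fin Z) else ⟨Z - 1, by omega⟩).getD w.2.1

/-- the contents after the entry -/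
def eC (ρ : ℤ) (t : ℕ) (w : Wt V G Z K) : Fin Z → G :=
  if t = 0 then fun i => R.init (cell Z sh ρ i) else w.2.2.1

/-- the letter under the head -/
def lt (ρ : ℤ) (t : ℕ) (w : Wt V G Z K) : G :=
  eC R Z sh K ρ t w (eP Z sh K hZ hsh ev t w)

/-- the number of the bits of the step -/
def cd (ρ : ℤ) (t : ℕ) (w : Wt V G Z K) : ℕ :=
  (R.rd t (eV R Z K ev t w) (lt R Z sh K hZ hsh ev ρ t w)).card

/-- the machine does the step -/
def can (ρ : ℤ) (t : ℕ) (w : Wt V G Z K) : Prop :=
  pz ev t = ρ ∧ (w.2.2.2.1 : ℕ) + cd R Z sh K hZ hsh ev ρ t w ≤ K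

/-- the result of the step -/
def oo (ρ : ℤ) (t : ℕ) (w : Wt V G Z K) (x : P → Bool) : V × G × Option Bool :=
  R.op t (eV R Z K ev t w) (lt R Z sh K hZ hsh ev ρ t w) x

/-- the check -/
def chk (ρ : ℤ) (t : ℕ) (w : Wt V G Z K) (o : V × G × Option Bool) : Prop :=
  pz ev t = ρ → ((w.2.2.2.1 : ℕ) + cd R Z sh K hZ hsh ev ρ t w ≤ K ∧
    ev t = me Z (eP Z sh K hZ hsh ev t w) o ∧ (t + 1 = T → o.1 = q))

/-- one step -/
noncomputable def stp (ρ : ℤ) (t : ℕ) (w : Wt V G Z K) (o : V × G × Option Bool) : Wt V G Z K :=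
  if h : can R Z sh K hZ hsh ev ρ t w then
    (o.1, nP Z (eP Z sh K hZ hsh ev t w) o,
      Function.update (eC R Z sh K ρ t w) (eP Z sh K hZ hsh ev t w) o.2.1,
      ⟨(w.2.2.2.1 : ℕ) + cd R Z sh K hZ hsh ev ρ t w, Nat.lt_succ_of_le h.2⟩,
      w.2.2.2.2 && decide (chk R Z sh T K hZ hsh q ev ρ t w o))
  else (eV R Z K ev t w, eP Z sh K hZ hsh ev t w, eC R Z sh K ρ t w, w.2.2.2.1,
    w.2.2.2.2 && decide (chk R Z sh T K hZ hsh q ev ρ t w o))

theorem stp_indep (ρ : ℤ) (t : ℕ) (w : Wt V G Z K) (o o' : V × G × Option Bool)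
    (h : ¬ can R Z sh K hZ hsh ev ρ t w) :
    stp R Z sh T K hZ hsh q ev ρ t w o = stp R Z sh T K hZ hsh q ev ρ t w o' := by
  unfold stp
  rw [dif_neg h, dif_neg h]
  have h1 : chk R Z sh T K hZ hsh q ev ρ t w o ↔ chk R Z sh T K hZ hsh q ev ρ t w o' := by
    unfold chk
    unfold can at h
    constructor
    · intro h2 h3
      exact absurd ⟨h3, (h2 h3).1⟩ h
    · intro h2 h3
      exact absurd ⟨h3, (h2 h3).1⟩ h
  simp only [h1]

/-- the machine -/
noncomputable def zm (m : ℕ) : SS P (Wt V G Z K) Unit where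
  start := (R.start, ⟨sh, hsh⟩, fun i => R.init (cell Z sh 0 i), 0, true)
  rd u w := if can R Z sh K hZ hsh ev (((u / T : ℕ) : ℤ) - m) (u % T) w then
    R.rd (u % T) (eV R Z K ev (u % T) w) (lt R Z sh K hZ hsh ev (((u / T : ℕ) : ℤ) - m) (u % T) w)
    else ∅
  op u w x := Op.stay (stp R Z sh T K hZ hsh q ev (((u / T : ℕ) : ℤ) - m) (u % T) w
    (oo R Z sh K hZ hsh ev (((u / T : ℕ) : ℤ) - m) (u % T) w x))
  loc := by
    intro u w x y h
    congr 1
    by_cases h1 : can R Z sh K hZ hsh ev (((u / T : ℕ) : ℤ) - m) (u % T) w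
    · rw [if_pos h1] at h
      have h2 : oo R Z sh K hZ hsh ev (((u / T : ℕ) : ℤ) - m) (u % T) w x =
          oo R Z sh K hZ hsh ev (((u / T : ℕ) : ℤ) - m) (u % T) w y := R.loc _ _ _ _ _ h
      rw [h2]
    · exact stp_indep R Z sh T K hZ hsh q ev _ _ _ _ _ h1

/-- the state at time `u` -/
noncomputable def ws (m : ℕ) (x : P → Bool) (u : ℕ) : Wt V G Z K :=
  ((zm R Z sh T K hZ hsh q ev m).conf x u).1

theorem ws_succ (m : ℕ) (x : P → Bool) (u : ℕ) :
    ws R Z sh T K hZ hsh q ev m x (u + 1) =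
      stp R Z sh T K hZ hsh q ev (((u / T : ℕ) : ℤ) - m) (u % T) (ws R Z sh T K hZ hsh q ev m x u)
        (oo R Z sh K hZ hsh ev (((u / T : ℕ) : ℤ) - m) (u % T)
          (ws R Z sh T K hZ hsh q ev m x u) x) := rfl

theorem ws_at (m : ℕ) (x : P → Bool) (j t : ℕ) (ht : t < T) :
    ws R Z sh T K hZ hsh q ev m x (j * T + t + 1) =
      stp R Z sh T K hZ hsh q ev ((j : ℤ) - m) t (ws R Z sh T K hZ hsh q ev m x (j * T + t))
        (oo R Z sh K hZ hsh ev ((j : ℤ) - m) t (ws R Z sh T K hZ hsh q ev m x (j * T + t)) x) := by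
  have h1 : (j * T + t) / T = j := by
    rw [Nat.add_comm, Nat.add_mul_div_right _ _ (by omega), Nat.div_eq_of_lt ht, Nat.zero_add]
  have h2 : (j * T + t) % T = t := by
    rw [Nat.add_comm, Nat.add_mul_mod_self_right, Nat.mod_eq_of_lt ht]
  rw [ws_succ, h1, h2]

/-! ## The events -/

theorem conf_succ (x : P → Bool) (t : ℕ) : R.conf x (t + 1) =
    ⟨(R.op t (R.conf x t).v ((R.conf x t).tp (R.conf x t).h) x).1,
      (R.conf x t).h + mv (R.op t (R.conf x t).v ((R.conf x t).tp (R.conf x t).h) x).2.2,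
      Function.update (R.conf x t).tp (R.conf x t).h
        (R.op t (R.conf x t).v ((R.conf x t).tp (R.conf x t).h) x).2.1⟩ := rfl

theorem head_step (x : P → Bool) (t : ℕ) : (R.conf x (t + 1)).h = (R.conf x t).h ∨
    (R.conf x (t + 1)).h = (R.conf x t).h + 1 ∨ (R.conf x (t + 1)).h = (R.conf x t).h - 1 := by
  rw [conf_succ]
  rcases mv_cases (R.op t (R.conf x t).v ((R.conf x t).tp (R.conf x t).h) x).2.2 with h | h | h
  · left
    rw [h]
    exact Int.add_zero _
  · right
    left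
    rw [h]
  · right
    right
    rw [h]
    rfl

omit hZ hsh in
theorem evt_none {x : P → Bool} {t : ℕ} (h : R.evt Z sh x t = none) :
    zn Z sh (R.conf x (t + 1)).h = zn Z sh (R.conf x t).h := by
  unfold TM.evt at h
  by_contra hne
  rw [if_neg hne] at h
  exact absurd h (by simp)

omit hsh in
include hZ in
theorem evt_some {x : P → Bool} {t : ℕ} {p : Bool × V} (h : R.evt Z sh x t = some p) :
    p.2 = (R.conf x (t + 1)).v ∧
    (p.1 = true → (R.conf x (t + 1)).h + sh = zn Z sh (R.conf x (t + 1)).h * Z ∧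
      zn Z sh (R.conf x (t + 1)).h = zn Z sh (R.conf x t).h + 1) ∧
    (p.1 = false → (R.conf x (t + 1)).h + sh = zn Z sh (R.conf x (t + 1)).h * Z + Z - 1 ∧
      zn Z sh (R.conf x (t + 1)).h = zn Z sh (R.conf x t).h - 1) := by
  unfold TM.evt at h
  by_cases hne : zn Z sh (R.conf x (t + 1)).h = zn Z sh (R.conf x t).h
  · rw [if_pos hne] at h
    exact absurd h (by simp)
  rw [if_neg hne] at h
  obtain ⟨h1, h2⟩ := zn_step hZ (head_step R x t) hne
  have h3 := Option.some_injective _ h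
  subst h3
  refine ⟨rfl, fun h4 => h1 (of_decide_eq_true h4), fun h4 => h2 (of_decide_eq_false h4)⟩

include hZ hsh in
theorem pz_eq {x : P → Bool} : ∀ {t : ℕ}, (∀ t' < t, R.evt Z sh x t' = ev t') →
    pz ev t = zn Z sh (R.conf x t).h
  | 0, _ => (zn_zero hZ hsh).symm
  | t + 1, h => by
    have h1 := pz_eq (t := t) fun t' ht' => h t' (by omega)
    show pz ev t + mv ((ev t).map Prod.fst) = _
    have h2 := h t (Nat.lt_succ_self t)
    rw [h1, ← h2]
    cases h3 : R.evt Z sh x t with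
    | none =>
      rw [evt_none R Z sh h3]
      simp [mv]
    | some p =>
      obtain ⟨-, h4, h5⟩ := evt_some R Z sh hZ h3
      rcases h6 : p.1 with _ | _
      · rw [(h5 h6).2]
        simp [mv, h6]
        ring
      · rw [(h4 h6).2]
        simp [mv, h6]

omit hsh in
include hZ in
/-- the event from the position in the zone -/
theorem evt_me {x : P → Bool} {t : ℕ} {ρ : ℤ} {p : Fin Z} (hρ : zn Z sh (R.conf x t).h = ρ)
    (hp : ((p : ℕ) : ℤ) = (R.conf x t).h + sh - ρ * Z) :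
    R.evt Z sh x t = me Z p (R.op t (R.conf x t).v ((R.conf x t).tp (R.conf x t).h) x) := by
  unfold TM.evt me
  have h1 : zn Z sh (R.conf x (t + 1)).h = zn Z sh (R.conf x t).h ↔
      ins Z p (R.op t (R.conf x t).v ((R.conf x t).tp (R.conf x t).h) x) := by
    rw [hρ, zn_iff hZ, conf_succ]
    unfold ins
    show (ρ * Z ≤ (R.conf x t).h + mv _ + sh ∧ (R.conf x t).h + mv _ + sh < ρ * Z + Z) ↔ _
    rw [hp]
    constructor <;> rintro ⟨h2, h3⟩ <;> constructor <;> linarith
  by_cases h2 : ins Z p (R.op t (R.conf x t).v ((R.conf x t).tp (R.conf x t).h) x)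
  · rw [if_pos (h1.2 h2), if_pos h2]
  · rw [if_neg (fun h3 => h2 (h1.1 h3)), if_neg h2]
    have h3 : ((R.conf x t).h < (R.conf x (t + 1)).h) ↔
        (0 < mv (R.op t (R.conf x t).v ((R.conf x t).tp (R.conf x t).h) x).2.2) := by
      rw [conf_succ]
      show (R.conf x t).h < (R.conf x t).h + mv _ ↔ _
      constructor <;> intro h <;> linarith
    simp only [h3]
    rfl

/-! ## The invariant -/

/-- after the entry, the machine knows the contents of the zone, and state and position if the head is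
in the zone -/
def Inv (ρ : ℤ) (t : ℕ) (w : Wt V G Z K) (c : Cf V G) : Prop :=
  (∀ i : Fin Z, eC R Z sh K ρ t w i = c.tp (cell Z sh ρ ((i : ℕ) : ℤ))) ∧
  (zn Z sh c.h = ρ → eV R Z K ev t w = c.v ∧
    (((eP Z sh K hZ hsh ev t w : Fin Z) : ℕ) : ℤ) = c.h + sh - ρ * Z)

theorem inv_zero (ρ : ℤ) (w : Wt V G Z K) (x : P → Bool) :
    Inv R Z sh K hZ hsh ev ρ 0 w (R.conf x 0) := by
  refine ⟨fun i => rfl, fun h => ⟨rfl, ?_⟩⟩
  have h1 : zn Z sh 0 = ρ := h
  rw [zn_zero hZ hsh] at h1
  subst h1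
  show ((sh : ℕ) : ℤ) = 0 + sh - 0 * Z
  ring

theorem inv_lt {ρ : ℤ} {t : ℕ} {w : Wt V G Z K} {c : Cf V G} (h : Inv R Z sh K hZ hsh ev ρ t w c)
    (hρ : zn Z sh c.h = ρ) : lt R Z sh K hZ hsh ev ρ t w = c.tp c.h := by
  unfold lt
  rw [h.1, cell_pos (h.2 hρ).2]

theorem inv_oo {ρ : ℤ} {t : ℕ} {w : Wt V G Z K} {c : Cf V G} (h : Inv R Z sh K hZ hsh ev ρ t w c)
    (hρ : zn Z sh c.h = ρ) (x : P → Bool) :
    oo R Z sh K hZ hsh ev ρ t w x = R.op t c.v (c.tp c.h) x := by
  unfold oo
  rw [inv_lt R Z sh K hZ hsh ev h hρ, (h.2 hρ).1]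

theorem inv_cd {ρ : ℤ} {t : ℕ} {w : Wt V G Z K} {c : Cf V G} (h : Inv R Z sh K hZ hsh ev ρ t w c)
    (hρ : zn Z sh c.h = ρ) :
    cd R Z sh K hZ hsh ev ρ t w = (R.rd t c.v (c.tp c.h)).card := by
  unfold cd
  rw [inv_lt R Z sh K hZ hsh ev h hρ, (h.2 hρ).1]

theorem stp_pos {ρ : ℤ} {t : ℕ} {w : Wt V G Z K} (o : V × G × Option Bool)
    (h : can R Z sh K hZ hsh ev ρ t w) :
    (stp R Z sh T K hZ hsh q ev ρ t w o).1 = o.1 ∧
    (stp R Z sh T K hZ hsh q ev ρ t w o).2.1 = nP Z (eP Z sh K hZ hsh ev t w) o ∧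
    (stp R Z sh T K hZ hsh q ev ρ t w o).2.2.1 =
      Function.update (eC R Z sh K ρ t w) (eP Z sh K hZ hsh ev t w) o.2.1 := by
  unfold stp
  rw [dif_pos h]
  exact ⟨rfl, rfl, rfl⟩

theorem stp_neg {ρ : ℤ} {t : ℕ} {w : Wt V G Z K} (o : V × G × Option Bool)
    (h : ¬ can R Z sh K hZ hsh ev ρ t w) :
    (stp R Z sh T K hZ hsh q ev ρ t w o).1 = eV R Z K ev t w ∧
    (stp R Z sh T K hZ hsh q ev ρ t w o).2.1 = eP Z sh K hZ hsh ev t w ∧
    (stp R Z sh T K hZ hsh q ev ρ t w o).2.2.1 = eC R Z sh K ρ t w := by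
  unfold stp
  rw [dif_neg h]
  exact ⟨rfl, rfl, rfl⟩

theorem inv_succ {ρ : ℤ} {t : ℕ} {w : Wt V G Z K} {x : P → Bool}
    (hI : Inv R Z sh K hZ hsh ev ρ t w (R.conf x t)) (hev : R.evt Z sh x t = ev t)
    (hpz : pz ev t = zn Z sh (R.conf x t).h)
    (hb : zn Z sh (R.conf x t).h = ρ → can R Z sh K hZ hsh ev ρ t w) :
    Inv R Z sh K hZ hsh ev ρ (t + 1)
      (stp R Z sh T K hZ hsh q ev ρ t w (oo R Z sh K hZ hsh ev ρ t w x)) (R.conf x (t + 1)) := by
  constructor
  · intro i
    have h1 : eC R Z sh K ρ (t + 1)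
        (stp R Z sh T K hZ hsh q ev ρ t w (oo R Z sh K hZ hsh ev ρ t w x)) =
        (stp R Z sh T K hZ hsh q ev ρ t w (oo R Z sh K hZ hsh ev ρ t w x)).2.2.1 := by
      unfold eC
      rw [if_neg (Nat.succ_ne_zero t)]
    rw [h1, conf_succ]
    show _ = Function.update (R.conf x t).tp (R.conf x t).h _ (cell Z sh ρ ((i : ℕ) : ℤ))
    by_cases hρ : zn Z sh (R.conf x t).h = ρ
    · rw [(stp_pos R Z sh T K hZ hsh q ev _ (hb hρ)).2.2, inv_oo R Z sh K hZ hsh ev hI hρ]
      have hp := (hI.2 hρ).2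
      by_cases hi : i = eP Z sh K hZ hsh ev t w
      · subst hi
        rw [Function.update_self, cell_pos hp, Function.update_self]
      · rw [Function.update_of_ne hi, Function.update_of_ne, hI.1]
        intro hc
        apply hi
        rw [← cell_pos hp] at hc
        unfold cell at hc
        ext
        omega
    · have hcan : ¬ can R Z sh K hZ hsh ev ρ t w := fun hc => hρ (hpz ▸ hc.1)
      rw [(stp_neg R Z sh T K hZ hsh q ev _ hcan).2.2, hI.1, Function.update_of_ne]
      intro hc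
      apply hρ
      rw [← hc, zn_cell hZ]
  · intro hρ
    cases h3 : ev t with
    | none =>
      rw [h3] at hev
      have h4 := evt_none R Z sh hev
      have h5 : zn Z sh (R.conf x t).h = ρ := by rw [← h4, hρ]
      have h6 := stp_pos R Z sh T K hZ hsh q ev (oo R Z sh K hZ hsh ev ρ t w x) (hb h5)
      have h7 : eV R Z K ev (t + 1)
          (stp R Z sh T K hZ hsh q ev ρ t w (oo R Z sh K hZ hsh ev ρ t w x)) =
          (stp R Z sh T K hZ hsh q ev ρ t w (oo R Z sh K hZ hsh ev ρ t w x)).1 := by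
        unfold eV
        rw [if_neg (Nat.succ_ne_zero t), Nat.add_sub_cancel, h3]
        rfl
      have h8 : eP Z sh K hZ hsh ev (t + 1)
          (stp R Z sh T K hZ hsh q ev ρ t w (oo R Z sh K hZ hsh ev ρ t w x)) =
          (stp R Z sh T K hZ hsh q ev ρ t w (oo R Z sh K hZ hsh ev ρ t w x)).2.1 := by
        unfold eP
        rw [if_neg (Nat.succ_ne_zero t), Nat.add_sub_cancel, h3]
        rfl
      have hp := (hI.2 h5).2
      rw [h7, h8, h6.1, h6.2.1, inv_oo R Z sh K hZ hsh ev hI h5]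
      refine ⟨by rw [conf_succ], ?_⟩
      have h9 := evt_me R Z sh hZ h5 hp
      rw [hev] at h9
      unfold me at h9
      by_cases h10 : ins Z (eP Z sh K hZ hsh ev t w)
          (R.op t (R.conf x t).v ((R.conf x t).tp (R.conf x t).h) x)
      · unfold nP
        rw [dif_pos h10]
        show (((((eP Z sh K hZ hsh ev t w : Fin Z) : ℕ) : ℤ) + mv _).toNat : ℤ) = _
        rw [Int.toNat_of_nonneg h10.1, hp, conf_succ]
        show _ = (R.conf x t).h + mv _ + sh - ρ * Z
        ring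
      · rw [if_neg h10] at h9
        exact absurd h9 (by simp)
    | some p =>
      rw [h3] at hev
      obtain ⟨h4, h5, h6⟩ := evt_some R Z sh hZ hev
      have h7 : eV R Z K ev (t + 1)
          (stp R Z sh T K hZ hsh q ev ρ t w (oo R Z sh K hZ hsh ev ρ t w x)) = p.2 := by
        unfold eV
        rw [if_neg (Nat.succ_ne_zero t), Nat.add_sub_cancel, h3]
        rfl
      have h8 : eP Z sh K hZ hsh ev (t + 1)
          (stp R Z sh T K hZ hsh q ev ρ t w (oo R Z sh K hZ hsh ev ρ t w x)) =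
          if p.1 then (⟨0, hZ⟩ : Fin Z) else ⟨Z - 1, by omega⟩ := by
        unfold eP
        rw [if_neg (Nat.succ_ne_zero t), Nat.add_sub_cancel, h3]
        rfl
      refine ⟨by rw [h7, h4], ?_⟩
      rw [h8]
      rcases h9 : p.1 with _ | _
      · have h10 := (h6 h9).1
        rw [hρ] at h10
        rw [h10]
        simp only [Bool.false_eq_true, if_false]
        push_cast [Nat.cast_sub hZ]
        ring
      · have h10 := (h5 h9).1
        rw [hρ] at h10
        rw [h10]
        simp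

/-! ## Flag and counter -/

theorem stp_flag {ρ : ℤ} {t : ℕ} {w : Wt V G Z K} (o : V × G × Option Bool) :
    (stp R Z sh T K hZ hsh q ev ρ t w o).2.2.2.2 =
      (w.2.2.2.2 && decide (chk R Z sh T K hZ hsh q ev ρ t w o)) := by
  unfold stp
  by_cases h : can R Z sh K hZ hsh ev ρ t w
  · rw [dif_pos h]
  · rw [dif_neg h]

theorem stp_cnt_pos {ρ : ℤ} {t : ℕ} {w : Wt V G Z K} (o : V × G × Option Bool)
    (h : can R Z sh K hZ hsh ev ρ t w) :
    ((stp R Z sh T K hZ hsh q ev ρ t w o).2.2.2.1 : ℕ) =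
      (w.2.2.2.1 : ℕ) + cd R Z sh K hZ hsh ev ρ t w := by
  unfold stp
  rw [dif_pos h]

theorem stp_cnt_neg {ρ : ℤ} {t : ℕ} {w : Wt V G Z K} (o : V × G × Option Bool)
    (h : ¬ can R Z sh K hZ hsh ev ρ t w) :
    ((stp R Z sh T K hZ hsh q ev ρ t w o).2.2.2.1 : ℕ) = (w.2.2.2.1 : ℕ) := by
  unfold stp
  rw [dif_neg h]

/-- the check at time `u` -/
def CHK (m : ℕ) (x : P → Bool) (u : ℕ) : Prop :=
  chk R Z sh T K hZ hsh q ev (((u / T : ℕ) : ℤ) - m) (u % T) (ws R Z sh T K hZ hsh q ev m x u)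
    (oo R Z sh K hZ hsh ev (((u / T : ℕ) : ℤ) - m) (u % T) (ws R Z sh T K hZ hsh q ev m x u) x)

theorem flag_iff (m : ℕ) (x : P → Bool) : ∀ u : ℕ,
    (ws R Z sh T K hZ hsh q ev m x u).2.2.2.2 = true ↔ ∀ u' < u, CHK R Z sh T K hZ hsh q ev m x u'
  | 0 => ⟨fun _ u' h => absurd h (Nat.not_lt_zero u'), fun _ => rfl⟩
  | u + 1 => by
    rw [ws_succ, stp_flag, Bool.and_eq_true, flag_iff m x u]
    constructor
    · rintro ⟨h1, h2⟩ u' hu'
      rcases Nat.lt_succ_iff_lt_or_eq.1 hu' with h3 | h3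
      · exact h1 u' h3
      · subst h3
        exact of_decide_eq_true h2
    · intro h
      exact ⟨fun u' hu' => h u' (by omega), decide_eq_true (h u (Nat.lt_succ_self u))⟩

theorem rd_sum (m : ℕ) (x : P → Bool) : ∀ u : ℕ,
    ∑ u' ∈ range u, ((zm R Z sh T K hZ hsh q ev m).rd u'
      ((zm R Z sh T K hZ hsh q ev m).conf x u').1).card =
      ((ws R Z sh T K hZ hsh q ev m x u).2.2.2.1 : ℕ)
  | 0 => rfl
  | u + 1 => by
    rw [Finset.sum_range_succ, rd_sum m x u, ws_succ]
    by_cases h : can R Z sh K hZ hsh ev (((u / T : ℕ) : ℤ) - m) (u % T)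
        (ws R Z sh T K hZ hsh q ev m x u)
    · rw [stp_cnt_pos R Z sh T K hZ hsh q ev _ h]
      congr 1
      show (if can R Z sh K hZ hsh ev (((u / T : ℕ) : ℤ) - m) (u % T)
        (ws R Z sh T K hZ hsh q ev m x u) then _ else _ : Finset P).card = _
      rw [if_pos h]
      rfl
    · rw [stp_cnt_neg R Z sh T K hZ hsh q ev _ h]
      show _ + (if can R Z sh K hZ hsh ev (((u / T : ℕ) : ℤ) - m) (u % T)
        (ws R Z sh T K hZ hsh q ev m x u) then _ else _ : Finset P).card = _
      rw [if_neg h, Finset.card_empty]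
      rfl

theorem div_at {T j t : ℕ} (ht : t < T) : (j * T + t) / T = j := by
  rw [Nat.add_comm, Nat.add_mul_div_right _ _ (by omega), Nat.div_eq_of_lt ht, Nat.zero_add]

theorem mod_at {T j t : ℕ} (ht : t < T) : (j * T + t) % T = t := by
  rw [Nat.add_comm, Nat.add_mul_mod_self_right, Nat.mod_eq_of_lt ht]

theorem CHK_at {m : ℕ} {x : P → Bool} {j t : ℕ} (ht : t < T) :
    CHK R Z sh T K hZ hsh q ev m x (j * T + t) ↔
      chk R Z sh T K hZ hsh q ev ((j : ℤ) - m) t (ws R Z sh T K hZ hsh q ev m x (j * T + t))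
        (oo R Z sh K hZ hsh ev ((j : ℤ) - m) t (ws R Z sh T K hZ hsh q ev m x (j * T + t)) x) := by
  unfold CHK
  rw [div_at ht, mod_at ht]

/-- the invariant holds if the events and the checks before were right -/
theorem inv_at {m : ℕ} {x : P → Bool} {j : ℕ} : ∀ {t : ℕ}, t < T →
    (∀ t' < t, R.evt Z sh x t' = ev t') →
    (∀ u' < j * T + t, CHK R Z sh T K hZ hsh q ev m x u') →
    Inv R Z sh K hZ hsh ev ((j : ℤ) - m) t (ws R Z sh T K hZ hsh q ev m x (j * T + t)) (R.conf x t)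
  | 0, _, _, _ => inv_zero R Z sh K hZ hsh ev _ _ x
  | t + 1, ht, hev, hchk => by
    have h1 := inv_at (m := m) (j := j) (t := t) (by omega) (fun t' h => hev t' (by omega))
      (fun u' h => hchk u' (by omega))
    have h2 := pz_eq R Z sh hZ hsh ev (t := t) (x := x) fun t' h => hev t' (by omega)
    have h3 := (CHK_at R Z sh T K hZ hsh q ev (by omega)).1 (hchk (j * T + t) (by omega))
    have h4 := inv_succ R Z sh T K hZ hsh q ev h1 (hev t (Nat.lt_succ_self t)) h2
      (fun h5 => ⟨h2.trans h5, (h3 (h2.trans h5)).1⟩)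
    rw [← Nat.add_assoc, ws_at R Z sh T K hZ hsh q ev m x j t (by omega)]
    exact h4

theorem pz_abs : ∀ t : ℕ, |pz ev t| ≤ ((range t).filter fun t => ev t ≠ none).card
  | 0 => by simp [pz]
  | t + 1 => by
    have h1 := pz_abs t
    have h2 : ((range (t + 1)).filter fun t => ev t ≠ none).card =
        ((range t).filter fun t => ev t ≠ none).card + if ev t ≠ none then 1 else 0 := by
      rw [Finset.range_add_one, Finset.filter_insert]
      by_cases h : ev t ≠ none
      · rw [if_pos h, if_pos h, Finset.card_insert_of_notMem (by simp)]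
      · rw [if_neg h, if_neg h]
        rfl
    have h3 : |pz ev (t + 1)| ≤ |pz ev t| + if ev t ≠ none then 1 else 0 := by
      show |pz ev t + mv ((ev t).map Prod.fst)| ≤ _
      cases h : ev t with
      | none => simp [mv]
      | some p =>
        have h4 : |mv ((some p).map Prod.fst)| ≤ 1 := by
          rcases mv_cases ((some p).map Prod.fst) with h5 | h5 | h5 <;> rw [h5] <;> simp
        simp only [ne_eq, reduceCtorEq, not_false_eq_true, if_true]
        exact (abs_add_le _ _).trans (by linarith)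
    rw [h2]
    push_cast
    refine h3.trans ?_
    have h5 : ((if ev t ≠ none then (1 : ℤ) else 0)) ≤ if ev t ≠ none then (1 : ℤ) else 0 := le_rfl
    linarith

/-- the number of the bits of the run read by the treatment at time `u` -/
noncomputable def am (m : ℕ) (x : P → Bool) (u : ℕ) : ℕ :=
  if zn Z sh (R.conf x (u % T)).h = ((u / T : ℕ) : ℤ) - m then R.bits x (u % T) else 0

omit hZ hsh in
theorem am_sum (m : ℕ) (x : P → Bool) : ∀ J : ℕ,
    ∑ u ∈ range (J * T), am R Z sh T m x u = ∑ t ∈ range T, ∑ j ∈ range J,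
      if zn Z sh (R.conf x t).h = ((j : ℕ) : ℤ) - m then R.bits x t else 0
  | 0 => by simp
  | J + 1 => by
    rw [Nat.succ_mul, Finset.sum_range_add, am_sum m x J, ← Finset.sum_add_distrib]
    refine Finset.sum_congr rfl fun t ht => ?_
    rw [Finset.sum_range_succ]
    congr 1
    unfold am
    rw [div_at (Finset.mem_range.1 ht), mod_at (Finset.mem_range.1 ht)]

omit hZ hsh in
theorem am_le (m : ℕ) (x : P → Bool) (J : ℕ) :
    ∑ u ∈ range (J * T), am R Z sh T m x u ≤ ∑ t ∈ range T, R.bits x t := by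
  rw [am_sum]
  refine Finset.sum_le_sum fun t _ => ?_
  rw [Finset.sum_ite, Finset.sum_const_zero, Nat.add_zero, Finset.sum_const, smul_eq_mul]
  have h1 : ((range J).filter fun j => zn Z sh (R.conf x t).h = ((j : ℕ) : ℤ) - m).card ≤ 1 := by
    rw [Finset.card_le_one]
    intro a ha b hb
    have h1 := (Finset.mem_filter.1 ha).2
    have h2 := (Finset.mem_filter.1 hb).2
    omega
  calc _ ≤ 1 * R.bits x t := Nat.mul_le_mul_right _ h1
    _ = _ := Nat.one_mul _

/-- if the events and the final state are right all checks succeed -/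
theorem complete {m : ℕ} {x : P → Bool} (hK : ∑ t ∈ range T, R.bits x t ≤ K)
    (hE : ∀ t < T, R.evt Z sh x t = ev t) (hq : (R.conf x T).v = q) (J : ℕ) :
    ∀ u ≤ J * T, (∀ u' < u, CHK R Z sh T K hZ hsh q ev m x u') ∧
      ((ws R Z sh T K hZ hsh q ev m x u).2.2.2.1 : ℕ) = ∑ u' ∈ range u, am R Z sh T m x u'
  | 0, _ => ⟨fun u' h => absurd h (Nat.not_lt_zero u'), rfl⟩
  | u + 1, hu => by
    obtain ⟨h1, h2⟩ := complete (m := m) hK hE hq J u (by omega)
    have hT : 0 < T := by
      by_contra h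
      have h0 : T = 0 := by omega
      rw [h0, Nat.mul_zero] at hu
      omega
    have ht : u % T < T := Nat.mod_lt _ hT
    have hu' : u / T * T + u % T = u := by
      rw [Nat.mul_comm]
      exact Nat.div_add_mod u T
    have h3 := inv_at R Z sh T K hZ hsh q ev (m := m) (x := x) (j := u / T) ht
      (fun t' h => hE t' (by omega)) (fun u' h => h1 u' (by omega))
    rw [hu'] at h3
    have h4 := pz_eq R Z sh hZ hsh ev (t := u % T) (x := x) fun t' h => hE t' (by omega)
    by_cases hρ : zn Z sh (R.conf x (u % T)).h = ((u / T : ℕ) : ℤ) - m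
    · have h5 := inv_cd R Z sh K hZ hsh ev h3 hρ
      have h6 : am R Z sh T m x u = R.bits x (u % T) := by
        unfold am
        rw [if_pos hρ]
      have h7 : ∑ u' ∈ range (u + 1), am R Z sh T m x u' ≤ K := by
        refine le_trans ?_ ((am_le R Z sh T m x J).trans hK)
        exact Finset.sum_le_sum_of_subset (Finset.range_subset_range.2 hu)
      rw [Finset.sum_range_succ, ← h2, h6] at h7
      have h8 : can R Z sh K hZ hsh ev (((u / T : ℕ) : ℤ) - m) (u % T)
          (ws R Z sh T K hZ hsh q ev m x u) := ⟨h4.trans hρ, by rw [h5]; exact h7⟩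
      refine ⟨fun u' h => ?_, ?_⟩
      · rcases Nat.lt_succ_iff_lt_or_eq.1 h with h9 | h9
        · exact h1 u' h9
        · subst h9
          intro h10
          refine ⟨h8.2, ?_, fun h11 => ?_⟩
          · rw [inv_oo R Z sh K hZ hsh ev h3 hρ, ← evt_me R Z sh hZ hρ (h3.2 hρ).2]
            exact (hE _ ht).symm
          · rw [inv_oo R Z sh K hZ hsh ev h3 hρ]
            have h12 : (R.conf x (u' % T + 1)).v = q := by rw [h11]; exact hq
            rw [conf_succ] at h12
            exact h12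
      · rw [ws_succ, stp_cnt_pos R Z sh T K hZ hsh q ev _ h8, h5, Finset.sum_range_succ, ← h2, h6]
        rfl
    · have h8 : ¬ can R Z sh K hZ hsh ev (((u / T : ℕ) : ℤ) - m) (u % T)
          (ws R Z sh T K hZ hsh q ev m x u) := fun h => hρ (h4 ▸ h.1)
      refine ⟨fun u' h => ?_, ?_⟩
      · rcases Nat.lt_succ_iff_lt_or_eq.1 h with h9 | h9
        · exact h1 u' h9
        · subst h9
          intro h10
          exact absurd (h4 ▸ h10) hρ
      · have h6 : am R Z sh T m x u = 0 := by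
          unfold am
          rw [if_neg hρ]
        rw [ws_succ, stp_cnt_neg R Z sh T K hZ hsh q ev _ h8, Finset.sum_range_succ, h6, h2]
        rfl

/-- if all checks succeed then events and final state are right -/
theorem sound {m : ℕ} {x : P → Bool} (hm : ((range T).filter fun t => ev t ≠ none).card ≤ m)
    (hC : ∀ u < (2 * m + 1) * T, CHK R Z sh T K hZ hsh q ev m x u) :
    ∀ t < T, R.evt Z sh x t = ev t ∧ (t + 1 = T → (R.conf x T).v = q) := by
  intro t
  induction t using Nat.strong_induction_on with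
  | _ t ih =>
    intro ht
    have hE : ∀ t' < t, R.evt Z sh x t' = ev t' := fun t' h => (ih t' h (by omega)).1
    have h4 := pz_eq R Z sh hZ hsh ev (t := t) (x := x) hE
    have h5 : |pz ev t| ≤ m := by
      refine (pz_abs ev t).trans ?_
      have h6 : ((range t).filter fun t => ev t ≠ none).card ≤
          ((range T).filter fun t => ev t ≠ none).card :=
        Finset.card_le_card (Finset.filter_subset_filter _ (Finset.range_subset_range.2 ht.le))
      exact_mod_cast h6.trans hm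
    obtain ⟨h6, h7⟩ := abs_le.1 h5
    obtain ⟨j, hj⟩ : ∃ j : ℕ, (j : ℤ) = pz ev t + m := ⟨(pz ev t + m).toNat,
      Int.toNat_of_nonneg (by omega)⟩
    have hj2 : j ≤ 2 * m := by omega
    have hρ : pz ev t = (j : ℤ) - m := by omega
    have hu : j * T + t < (2 * m + 1) * T := by
      calc j * T + t < j * T + T := by omega
        _ = (j + 1) * T := by ring
        _ ≤ (2 * m + 1) * T := Nat.mul_le_mul_right _ (by omega)
    have h3 := inv_at R Z sh T K hZ hsh q ev (m := m) (x := x) (j := j) ht hE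
      (fun u' h => hC u' (by omega))
    have h8 := (CHK_at R Z sh T K hZ hsh q ev ht).1 (hC _ hu) hρ
    have h9 : zn Z sh (R.conf x t).h = (j : ℤ) - m := h4.symm.trans hρ
    have h10 := evt_me R Z sh hZ h9 (h3.2 h9).2
    rw [inv_oo R Z sh K hZ hsh ev h3 h9] at h8
    refine ⟨h10.trans h8.2.1.symm, fun h11 => ?_⟩
    have h12 := h8.2.2 h11
    have h13 : (R.conf x (t + 1)).v = q := by
      rw [conf_succ]
      exact h12
    rw [← h11]
    exact h13

end

end ZONx

open ZONx in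
theorem t_ZON : S_ZON := by
  intro P V G _ _ R Z sh m T s K g q ev hZ hsh hm hs hG
  refine ⟨Wt V G Z K, inferInstance, zm R Z sh T K hZ hsh q ev m,
    fun w => w.2.2.2.2 = true ∧ (T = 0 → R.start = q), ?_, ?_, ?_, ?_⟩
  · have h1 : Fintype.card (Wt V G Z K) =
        Fintype.card V * (Z * (Fintype.card G ^ Z * ((K + 1) * 2))) := by
      simp [Fintype.card_prod]
    rw [h1]
    have h2 : Fintype.card G ^ Z ≤ 2 ^ (g * Z) := by
      rw [pow_mul]
      exact Nat.pow_le_pow_left hG Z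
    calc Fintype.card V * (Z * (Fintype.card G ^ Z * ((K + 1) * 2)))
        = 2 * (Fintype.card V * Z * Fintype.card G ^ Z * (K + 1)) := by ring
      _ ≤ 2 * (Fintype.card V * Z * 2 ^ (g * Z) * (K + 1)) := by gcongr
  · intro t w
    show (if _ then _ else _ : Finset P).card ≤ s
    split_ifs
    · exact hs _ _ _
    · exact Nat.zero_le _
  · intro x
    rw [rd_sum]
    exact Nat.lt_succ_iff.1 (Fin.is_lt _)
  · intro x hK
    have h0 := flag_iff R Z sh T K hZ hsh q ev m x ((2 * m + 1) * T)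
    constructor
    · rintro ⟨h1, h2⟩
      have h3 := sound R Z sh T K hZ hsh q ev hm (h0.1 h1)
      refine ⟨fun t ht => (h3 t ht).1, ?_⟩
      rcases Nat.eq_zero_or_pos T with hT | hT
      · subst hT
        exact h2 rfl
      · exact (h3 (T - 1) (by omega)).2 (by omega)
    · rintro ⟨h1, h2⟩
      refine ⟨h0.2 (complete R Z sh T K hZ hsh q ev hK h1 h2 (2 * m + 1) _ le_rfl).1, ?_⟩
      intro hT
      subst hT
      exact h2

end Pool.Agent.PPT
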