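import Pool.Agent.PPS.All
import Pool.Agent.PPT.ZON
import Pool.Agent.PPT.AUG
import Pool.Agent.PPT.AVS
import Pool.Agent.PPT.ROO
import Pool.Agent.PPT.MLU
import Pool.Agent.PPT.MLT
import Pool.Agent.PPT.LWT
import Pool.Agent.PPT.MT
import Pool.Agent.PPT.AUXT

/-!
# Project PPT: the theorems
-/

set_option autoImplicit false

namespace Pool.Agent.PPT

open Pool.Agent.TKN.ONE (t_SIZ)

theorem mlt : S_MLT := t_MLT (t_MLU (t_ROO t_ZON PPS.mls) t_AUG t_AVS)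

theorem lwt : S_LWT := t_LWT PPS.mls mlt PPL.gsd t_SIZ

theorem mt1 : S_MT1 := t_MT1 lwt PPL.t_AVG t_SIZ

theorem mt2 : S_MT2 := t_MT2 mt1 t_SIZ

end Pool.Agent.PPT
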