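import Pool.Agent.PPS.St3

/-!
# Project PPT: deterministic machines with one unlimited tape

Correlation of deterministic Boolean machines with one unlimited work tape (letters of `g` bits), whose
cost is the number of the input bits read plus `g` times the number of the moves of the head, with the
function of project PPL.
-/

set_option autoImplicit false

open Finset
open scoped Classical

namespace Pool.Agent.PPT

/-- a configuration: the state, the position of the head, the contents of the tape -/
structure Cf (V G : Type) where
  v : V
  h : ℤ
  tp : ℤ → G

/-- how the head moves -/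
def mv : Option Bool → ℤ
  | none => 0
  | some true => 1
  | some false => -1

/-- A deterministic machine with a tape: at time `t` in state `v`, if the letter under the head is `a`,
it reads the input bits `rd t v a`; they determine its new state, the letter it writes, and the move
of the head. -/
structure TM (P V G : Type) where
  /-- the initial state -/
  start : V
  /-- the initial contents of the tape; the head is at `0` -/
  init : ℤ → G
  /-- the input bits read -/
  rd : ℕ → V → G → Finset P
  /-- the new state, the letter written, the move -/
  op : ℕ → V → G → (P → Bool) → V × G × Option Bool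
  /-- this only depends on the bits read -/
  loc : ∀ t v a x y, (∀ p ∈ rd t v a, x p = y p) → op t v a x = op t v a y

/-- one step at time `t` -/
noncomputable def TM.step {P V G : Type} (R : TM P V G) (x : P → Bool) (t : ℕ) (c : Cf V G) :
    Cf V G :=
  ⟨(R.op t c.v (c.tp c.h) x).1, c.h + mv (R.op t c.v (c.tp c.h) x).2.2,
    Function.update c.tp c.h (R.op t c.v (c.tp c.h) x).2.1⟩

/-- the configuration after `t` steps -/
noncomputable def TM.conf {P V G : Type} (R : TM P V G) (x : P → Bool) : ℕ → Cf V G
  | 0 => ⟨R.start, 0, R.init⟩
  | t + 1 => R.step x t (R.conf x t)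

/-- the number of the bits read by the step at time `t` -/
noncomputable def TM.bits {P V G : Type} (R : TM P V G) (x : P → Bool) (t : ℕ) : ℕ :=
  (R.rd t (R.conf x t).v ((R.conf x t).tp (R.conf x t).h)).card

/-- the number of the moves of a path before time `T` -/
noncomputable def moves (h : ℕ → ℤ) (T : ℕ) : ℕ := ((range T).filter fun t => h (t + 1) ≠ h t).card

/-- the cost: the number of the bits read plus `g` times the number of the moves of the head -/
noncomputable def TM.cost {P V G : Type} (R : TM P V G) (g : ℕ) (x : P → Bool) (T : ℕ) : ℕ :=
  ∑ t ∈ range T, R.bits x t + g * moves (fun t => (R.conf x t).h) T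

/-! ## Zones -/

/-- the number of the zone of the cell `h`: the zones have `Z` cells, zone `ρ` consists of the cells
`ρ Z - s, …, ρ Z - s + Z - 1` -/
def zn (Z s : ℕ) (h : ℤ) : ℤ := (h + s) / Z

/-- the number of the crossings of the borders of the zones by a path before time `T` -/
noncomputable def crs (Z s : ℕ) (h : ℕ → ℤ) (T : ℕ) : ℕ :=
  ((range T).filter fun t => zn Z s (h (t + 1)) ≠ zn Z s (h t)).card

/-- the event at time `t`: the step at time `t` leads into another zone (`true`: the next one, `false`:
the one before) with the given new state -/
noncomputable def TM.evt {P V G : Type} (R : TM P V G) (Z s : ℕ) (x : P → Bool) (t : ℕ) :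
    Option (Bool × V) :=
  if zn Z s (R.conf x (t + 1)).h = zn Z s (R.conf x t).h then none
  else some (decide ((R.conf x t).h < (R.conf x (t + 1)).h), (R.conf x (t + 1)).v)

/-- the zone at time `t`, if `ev` are the events -/
def pz {V : Type} (ev : ℕ → Option (Bool × V)) : ℕ → ℤ
  | 0 => 0
  | t + 1 => pz ev t + mv ((ev t).map Prod.fst)

/-! ## The class -/

/-- The sets of inputs decided by deterministic machines with at most `2 ^ b` nodes (pairs of a time
`t ≤ T` and a state) and one tape of any length with letters of `g ≤ b` bits, which read at most `b` bits
at once and whose cost is at most `τ` on each input. -/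
def Mct (I : Type) (τ b : ℝ) (P : (I → Bool) → Prop) : Prop :=
  ∃ (T g : ℕ) (V G : Type) (_ : Fintype V) (_ : Fintype G) (R : TM I V G) (acc : V → Prop),
    1 ≤ g ∧ (g : ℝ) ≤ b ∧ Fintype.card G ≤ 2 ^ g ∧
    ((((T + 1) * Fintype.card V : ℕ) : ℝ) ≤ (2 : ℝ) ^ b) ∧
    (∀ t v a, ((R.rd t v a).card : ℝ) ≤ b) ∧
    (∀ x, ((R.cost g x T : ℕ) : ℝ) ≤ τ) ∧
    ∀ x, P x ↔ acc (R.conf x T).v

/-- machines with an unlimited stack, or with an unlimited tape -/
def Mst (I : Type) (τ b : ℝ) (P : (I → Bool) → Prop) : Prop := PPS.Mcs I τ b P ∨ Mct I τ b P

end Pool.Agent.PPT
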