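import Pool.Agent.PPT.Defs

/-!
# Project PPT: statements

Every module proves one `S_XXX` as `theorem Pool.Agent.PPT.t_XXX : S_XXX`, or, if it uses other
statements, `theorem t_XXX (h : S_YYY) ... : S_XXX` with exactly the hypotheses named in the
doc string, in this order; so nobody waits. File `Pool/Agent/PPT/XXX.lean`.

IDEA.  Cut the tape into zones of `Z` cells. Each cell border is a border of zones for one of the `Z`
shifts, so a path with `μ` moves crosses the borders at most `2 μ / Z` times for half of the shifts; for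
`q` suitable shifts all but `2 ^ (- q)` of the inputs have a good one. A plain machine that knows the
list of all crossings (time, direction, new state) can check it: it simulates zone after zone, for each
zone from time `0` to `T`, keeps the contents of one zone in its memory, and skips the times at
which the head is elsewhere.
-/

set_option autoImplicit false

open Finset
open scoped Classical

namespace Pool.Agent.PPT

open Pool.Agent.PPL (sg Auto sgP fP)
open Pool.Agent.TKN.ONE (size Bas Lay)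
open Pool.Agent.PPS (SS cube HardC)

/-- ZON.  The plain machine which checks the events.
Proof.  If `|V| = 0` there is nothing (`R.start : V`).  `W = V × Fin Z × (Fin Z → G) × Fin (K + 1) × Bool`:
state and position of the head in the zone, contents of the zone, number of the bits read, flag. At
time `u = j T + t` (`j = u / T ≤ 2 m`, `t = u % T`) it treats zone `ρ = j - m` and time `t`. First the
entry: if `t = 0` then contents `:=` the contents of zone `ρ` at the start (cell `i` of the zone is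
the cell `ρ Z - s + i`), state `:= R.start`, position `:= s`; if `t > 0` and `ev (t - 1) = some (d, v)`
then state `:= v`, position `:= 0` if `d`, `:= Z - 1` if not. If `pz ev t ≠ ρ` nothing else. If
`pz ev t = ρ`: if the number of the bits of the step, `card (R.rd t v a)`, added to the counter
exceeds `K`: flag `:= false`, nothing else, nothing read. Otherwise it reads them, does the step; if the
new position is in the zone the flag becomes `false` if `ev t ≠ none`; if it is not, the flag becomes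
`false` if `ev t ≠ some (d, new state)`, `d` = the direction; if `t = T - 1` the flag becomes `false` if
the new state is not `q`. `ok` = the flag (and `R.start = q` if `T = 0`). The flag does not
influence the rest, it is `true` iff all checks at all `u` succeed.
Let `Inv (j, t)`: after the entry the contents are those of zone `ρ` at time `t`, and if
`zn (conf x t).h = ρ` state and position are those of `conf x t`. If `evt t' = ev t'` for all `t' < t`
(so `pz ev t = zn (conf x t).h`) then `Inv (j, t)` for all `j`, provided that the budget was not exceeded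
before. (⇐) by induction on `u` the counter at `u` is the sum of
`if zn (conf x t').h = ρ' then bits x t' else 0` over `u' < u`; the sum over all `u'` is at most the sum of
`bits x t` over `t < T`, at most `K` (for every `t` there is at most one `j`). (⇒) by induction on `t`
`evt t = ev t`: `|pz ev t| ≤ m`, so there is `j` with `ρ = pz ev t`, and the check at `(j, t)` succeeds. -/
def S_ZON : Prop := ∀ (P V G : Type) [Fintype V] [Fintype G] (R : TM P V G)
  (Z sh m T s K g : ℕ) (q : V) (ev : ℕ → Option (Bool × V)), 1 ≤ Z → sh < Z →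
  ((range T).filter fun t => ev t ≠ none).card ≤ m → (∀ t v a, (R.rd t v a).card ≤ s) →
  Fintype.card G ≤ 2 ^ g →
  ∃ (W : Type) (_ : Fintype W) (R' : SS P W Unit) (ok : W → Prop),
    Fintype.card W ≤ 2 * (Fintype.card V * Z * 2 ^ (g * Z) * (K + 1)) ∧
    (∀ t w, (R'.rd t w).card ≤ s) ∧
    (∀ x, ∑ t ∈ range ((2 * m + 1) * T), (R'.rd t (R'.conf x t).1).card ≤ K) ∧
    ∀ x, ∑ t ∈ range T, R.bits x t ≤ K →
      (ok (R'.conf x ((2 * m + 1) * T)).1 ↔
        (∀ t < T, R.evt Z sh x t = ev t) ∧ (R.conf x T).v = q)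

/-- AUG.  A machine which also counts the crossings for the shifts `σ j`, up to `m + 1`.
Proof.  States `V × Fin Z × (Fin q → Fin (m + 2))`, the second is the position of the head modulo
`Z`. `zn Z s (h + 1) ≠ zn Z s h` iff `Z ∣ h + 1 + s`, `zn Z s (h - 1) ≠ zn Z s h` iff `Z ∣ h + s`. -/
def S_AUG : Prop := ∀ (P V G : Type) [Fintype V] (R : TM P V G) (Z m q : ℕ) (σ : Fin q → ℕ), 1 ≤ Z →
  ∃ (V' : Type) (_ : Fintype V') (R' : TM P V' G) (π : V' → V) (κ : V' → Fin q → ℕ),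
    Fintype.card V' = Fintype.card V * Z * (m + 2) ^ q ∧
    (∀ t v a, R'.rd t v a = R.rd t (π v) a) ∧
    ∀ x t, π (R'.conf x t).v = (R.conf x t).v ∧ (R'.conf x t).h = (R.conf x t).h ∧
      (R'.conf x t).tp = (R.conf x t).tp ∧
      ∀ j, κ (R'.conf x t).v j = min (crs Z (σ j) (fun t => (R.conf x t).h) t) (m + 1)

/-- AVS.  Good shifts.
Proof.  `∑ s < Z, crs Z s h T = moves h T` if `|h (t + 1) - h t| ≤ 1`: for `h (t + 1) = h t + 1` there is
exactly one `s < Z` with `Z ∣ h t + 1 + s`. Induction on `q`: if `B` is the set of the bad `x`, then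
`∑ s < Z, (m + 1) * card {x ∈ B | m < crs Z s (h x) T} ≤ ∑ x ∈ B, moves (h x) T`
and `2 * moves ≤ (m + 1) * Z`, so some `s` has `2 * card {x ∈ B | …} ≤ card B`. -/
def S_AVS : Prop := ∀ (X : Type) [Fintype X] (h : X → ℕ → ℤ) (Z m T q : ℕ), 1 ≤ Z →
  (∀ x t, |h x (t + 1) - h x t| ≤ 1) → (∀ x, 2 * moves (h x) T ≤ (m + 1) * Z) →
  ∃ σ : Fin q → ℕ, (∀ j, σ j < Z) ∧
    2 ^ q * (univ.filter fun x : X => ∀ j, m < crs Z (σ j) (h x) T).card ≤ Fintype.card X

/-- ROO (uses `S_ZON`, `PPS.S_MLS`).  The inputs with at most `m` crossings.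
Proof.  The same `A`. The sum is the sum over all `ev : Fin T → Option (Bool × V)` with at most `m` values
`≠ none` (read as functions on `ℕ`) and all `q : V` of the sums over the `x` with these events and final
state `q` (for them `crs ≤ m`: `evt t ≠ none` iff the zone changes), times `gg q`. By ZON this set is
`{x | ok (R'.conf x ((2 m + 1) T)).1}`; `PPS.S_MLS` for `R'` and the indicator of `ok`. There are at most
`(2 T |V| + 1) ^ m` such `ev` (a subset of `Fin T × (Bool × V)` with at most `m` elements is the image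
of a map `Fin m → Option _`, as in `PPS/TRW.lean`), and `(2 T |V| + 1) ^ m |V| ≤ (2 (T + 1) |V|) ^ (m + 1)`. -/
def S_ROO : Prop := ∃ A : ℕ, ∀ k : ℕ, 2 ≤ k → ∀ n : ℕ, k ^ (A * k) ≤ n →
  ∀ (L : ℕ) (V G : Type) [Fintype V] [Fintype G] (R : TM (Fin L × Fin n) V G)
    (s T K g Z sh m : ℕ) (f : (Fin n → Bool) → Bool) (gg : V → ℝ), 1 ≤ L → 1 ≤ Z → sh < Z →
  Fintype.card G ≤ 2 ^ g → (∀ t v a, (R.rd t v a).card ≤ s) →
  (∀ x, ∑ t ∈ range T, R.bits x t ≤ K) → 8 * K ≤ k * (n * L) →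
  (s : ℝ) ≤ (n : ℝ) / k ^ (A * k) → Auto f ((n : ℝ) / k ^ (A * k)) → (∀ v, |gg v| ≤ 1) →
  |∑ x ∈ univ.filter (fun x : Fin L × Fin n → Bool => crs Z sh (fun t => (R.conf x t).h) T ≤ m),
      gg (R.conf x T).v * ∏ l, sg (f fun j => x (l, j))| ≤
    ((2 * ((T + 1) * Fintype.card V) : ℕ) : ℝ) ^ (m + 1) *
      ((((2 * m + 1) * T + 1) * (K + 1) ^ L *
        (2 * (Fintype.card V * Z * 2 ^ (g * Z) * (K + 1))) : ℕ) : ℝ) ^ (k ^ A + 1) *
      2 ^ (L * n) * (2 : ℝ) ^ (-((n : ℝ) / k ^ (A * k)))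

/-- MLU (uses `S_ROO`, `S_AUG`, `S_AVS`).  All inputs.
Proof.  The same `A`. `moves * g ≤ K` and `1 ≤ g` give `2 * moves ≤ (m + 1) * Z`. AVS for `X` = the inputs,
`h x t = (R.conf x t).h`; AUG for these `σ`. The sum is the sum over the `x` with `m < crs` for all
`σ j` (at most `2 ^ (L n) / 2 ^ q` of them) plus the sum over `j` of the sums over the `x` with `crs ≤ m`
for `σ j` and `m < crs` for all `σ i`, `i < j`: ROO for the machine of AUG, `sh = σ j` and
`gg' v = if ∀ i < j, κ v i = m + 1 then gg (π v) else 0`. -/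
def S_MLU : Prop := ∃ A : ℕ, ∀ k : ℕ, 2 ≤ k → ∀ n : ℕ, k ^ (A * k) ≤ n →
  ∀ (L : ℕ) (V G : Type) [Fintype V] [Fintype G] (R : TM (Fin L × Fin n) V G)
    (s T K g Z m q : ℕ) (f : (Fin n → Bool) → Bool) (gg : V → ℝ), 1 ≤ L → 1 ≤ Z → 1 ≤ g →
  Fintype.card G ≤ 2 ^ g → (∀ t v a, (R.rd t v a).card ≤ s) →
  (∀ x, R.cost g x T ≤ K) → 8 * K ≤ k * (n * L) → 2 * K ≤ (m + 1) * (g * Z) →
  (s : ℝ) ≤ (n : ℝ) / k ^ (A * k) → Auto f ((n : ℝ) / k ^ (A * k)) → (∀ v, |gg v| ≤ 1) →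
  ∀ U : ℕ, U = Fintype.card V * Z * (m + 2) ^ q →
  |∑ x : Fin L × Fin n → Bool, gg (R.conf x T).v * ∏ l, sg (f fun j => x (l, j))| ≤
    2 ^ (L * n) * (1 / 2 ^ q + q * (((2 * ((T + 1) * U) : ℕ) : ℝ) ^ (m + 1) *
      ((((2 * m + 1) * T + 1) * (K + 1) ^ L * (2 * (U * Z * 2 ^ (g * Z) * (K + 1))) : ℕ) : ℝ) ^
        (k ^ A + 1) * (2 : ℝ) ^ (-((n : ℝ) / k ^ (A * k)))))

/-- MLT (uses `S_MLU`).  The choice of the numbers.
Proof.  The same `A`. Let `D = k ^ (A k) ≤ B`, `E = k ^ A + 1 ≤ 2 B`. `Z = n / (16 B ^ 2 g)` (natural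
division, `≥ 1`), so `n / (32 B ^ 2) ≤ g Z ≤ n / (16 B ^ 2)`; `m = 8 B ^ 4`, so
`2 K ≤ k n L / 4 ≤ n B ^ 2 / 4 ≤ (m + 1) g Z`; `q = n / B ^ 10` (natural division). Exponents of two:
`E g Z ≤ n / (8 B)`; `(m + 2) ^ (q (m + 1 + E))`: `m + 1 + E ≤ 9 B ^ 4`, `m + 2 ≤ 2 ^ (9 B ^ 4)`, so at most
`81 n / B ^ 2 ≤ n / (8 B)`; the rest (`2`, `Z`, `2 m + 1`, `K + 1`, `q`, each at most `n ^ 2`, with exponents
at most `9 B ^ 4 + 4 B (B + 5)`) at most `n / (8 B)` as `n ≥ B ^ 20`. `((2 m + 1) T + 1) ≤ (2 m + 1) (T + 1)`.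
The exponent of `(T + 1) |V|` is at most `9 B ^ 4 ≤ B ^ 5`. So the bound is
`((T + 1) |V|) ^ (B ^ 5) 2 ^ (L n) (2 2 ^ (-n / B ^ 10) + 2 ^ (-n / D + 3 n / (8 B)))`. -/
def S_MLT : Prop := ∃ A : ℕ, ∀ k : ℕ, 2 ≤ k → ∀ B : ℕ, 1024 ≤ B → k ≤ B → k ^ (A * k) ≤ B →
  ∀ n : ℕ, B ^ 20 ≤ n →
  ∀ (L : ℕ) (V G : Type) [Fintype V] [Fintype G] (R : TM (Fin L × Fin n) V G)
    (s T K g : ℕ) (f : (Fin n → Bool) → Bool) (gg : V → ℝ), 1 ≤ L → L ≤ B → 1 ≤ g →
  16 * B ^ 2 * g ≤ n → Fintype.card G ≤ 2 ^ g → (∀ t v a, (R.rd t v a).card ≤ s) →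
  (∀ x, R.cost g x T ≤ K) → 8 * K ≤ k * (n * L) →
  (s : ℝ) ≤ (n : ℝ) / k ^ (A * k) → Auto f ((n : ℝ) / k ^ (A * k)) → (∀ v, |gg v| ≤ 1) →
  |∑ x : Fin L × Fin n → Bool, gg (R.conf x T).v * ∏ l, sg (f fun j => x (l, j))| ≤
    (((T + 1) * Fintype.card V : ℕ) : ℝ) ^ B ^ 5 * 2 ^ (L * n) *
      (2 : ℝ) ^ (-((n : ℝ) / (B : ℝ) ^ 11))

/-- LWT (uses `PPS.S_MLS`, `S_MLT`, `PPL.S_GSD`, `TKN.ONE.S_SIZ`): as `PPS.S_LWC`, one subcube for both
kinds of machines.
Proof.  Port of `PPS/LWC.lean` and of `PPS.LWSP.core` (file PPS/LWS.lean). `A1` = the maximum of the two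
`A` (both statements are monotone in `A`: `Auto f a` for smaller `a` is stronger (`auto_mono`);
or choose the `A` of `S_MLT` for the machines with a tape and that of `S_MLS` for the others with
`Q` = the maximum of the two powers), `Q = (48 k) ^ (48 A1 k)`, `e` as there, `n = pt M e`, `L = cop e ≤ 2 ^ 22 Q ^ 2`,
`B = 2 ^ 22 Q ^ 2`, `N = size M ≤ 3 M ≤ 6 n L ≤ 6 n B`, `W = k ^ (A k) ≥ 2 B ^ 21`, `M ≥ W`. A tape
machine on the cube is a tape machine for the point bits, its cost is at most that of the given one. Its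
bound is `2 ^ (N / W * B ^ 5) 2 ^ (L n) 2 ^ (-n / B ^ 11)` and `N / W * (B ^ 5 + 1) ≤ n / B ^ 11`. -/
def S_LWT : Prop := ∃ A : ℕ, ∀ k M : ℕ, 2 ≤ k → k ^ (A * k) ≤ M → ∀ (β : Bas M) (ly : Lay M),
  ∃ (D : Finset (Fin (size M))) (w : Fin (size M) → Bool), size M ≤ 6 * D.card ∧
    ∀ P : (Fin (size M) → Bool) → Prop,
      Mst (Fin (size M)) (k * size M) (1 / (k : ℝ) ^ (A * k) * size M) P →
      |∑ v ∈ cube D w, sgP (P v) * sgP (fP β ly v = true)| ≤
        (2 : ℝ) ^ (-(1 / (k : ℝ) ^ (A * k) * size M)) * 2 ^ D.card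

/-- MT1 (uses `S_LWT`, `PPL.S_AVG`, `TKN.ONE.S_SIZ`).  Port of `PPS.t_MC1`. -/
def S_MT1 : Prop := ∃ A : ℕ, ∀ k M : ℕ, 2 ≤ k → k ^ (A * k) ≤ M → ∀ (β : Bas M) (ly : Lay M)
  (N : ℕ) (c : ℝ), N = size M → c = 1 / (k : ℝ) ^ (A * k) →
  HardC (Mst (Fin (size M)) (k * N) (c * N)) (c * N) (fun v => fP β ly v = true)

/-- MT2 (uses `S_MT1`, `TKN.ONE.S_SIZ`).  Port of `PPS.t_MC2`. -/
def S_MT2 : Prop := ∀ ε : ℝ, 0 < ε → ε < 1 → ∃ c : ℝ, 0 < c ∧ ∃ M0 : ℕ, ∀ M ≥ M0, ∀ (β : Bas M)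
  (ly : Lay M) (N : ℕ) (b : ℝ), N = size M → b = (N : ℝ) ^ (1 - ε) →
  HardC (Mst (Fin (size M)) (c * N * Real.log N / Real.log (Real.log N)) b) b
    (fun v => fP β ly v = true)

/-- AUX.  PP mode is a part of PSPACE mode; with `N + 1` coins every function is in PP mode (from
`PPS.t_AUX`). -/
def S_AUX : Prop :=
  (∀ (I : Type) (τ b : ℝ) (W : ℕ) (L : (I → Bool) → Prop),
    UM.InPP (Mst I τ b) W L → UM.InPSPACE (Mst I τ b) (W * (W + 3) / 2) L) ∧
  ∀ (N : ℕ) (b : ℝ) (L : (Fin N → Bool) → Prop), 0 < N → 1 ≤ b → 2 * ((N : ℝ) + 1) ≤ (2 : ℝ) ^ b →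
    UM.InPP (Mst (Fin N) N b) (N + 1) L

end Pool.Agent.PPT
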